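import Pool.Agent.T2H36.FB.C1

set_option autoImplicit false
set_option linter.unusedSectionVars false
set_option linter.style.haveILetI false

/-!
Fibres of families, Tate conjecture for divisors, part 2: the final theorem.
-/

open MvPolynomial Matrix Filter Topology NumberField IsDedekindDomain
open Pool.Agent.Y142.ZO Pool.Agent.Y142.ZI
open Pool.Agent.Y142.ZS (Sim SpLie)
open Pool.Agent.Y95.MT

namespace Pool.Agent.T2H36.FB

open Pool.Agent.R932 Pool.Agent.R932.OP Pool.Agent.T2H36.IX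

section zar

variable {n : ℕ}

theorem lift_eval1 {ℓ : ℕ} [Fact ℓ.Prime] (ε : ℚ_[ℓ] →+* ℂ) {g : Matrix (Fin n) (Fin n) ℂ}
    {t : Matrix (Fin n) (Fin n) ℚ_[ℓ]} (h : ∀ a b, g a b = ε (t a b))
    (f : GR.Pf ℚ_[ℓ] (fun _ : Unit => n)) :
    aeval (fun q : Fin n × Fin n => g q.1 q.2)
      (MvPolynomial.eval₂Hom (MvPolynomial.C.comp ε)
        (fun x : (Σ _ : Unit, Fin n × Fin n) =>
          (X (x.2.1, x.2.2) : MvPolynomial (Fin n × Fin n) ℂ)) f) =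
      ε (GR.evf (fun _ => t) f) := by
  have h1 : ((aeval (fun q : Fin n × Fin n => g q.1 q.2) :
      MvPolynomial (Fin n × Fin n) ℂ →ₐ[ℂ] ℂ) : _ →+* _).comp
        (MvPolynomial.eval₂Hom (MvPolynomial.C.comp ε)
        (fun x : (Σ _ : Unit, Fin n × Fin n) =>
          (X (x.2.1, x.2.2) : MvPolynomial (Fin n × Fin n) ℂ))) =
      ε.comp (GR.evf (fun _ : Unit => t)) := by
    refine MvPolynomial.ringHom_ext (fun r => ?_) (fun x => ?_)
    · simp [GR.evf]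
    · simp [GR.evf, h]
  exact congrFun (congrArg DFunLike.coe h1) f

/-- the Zariski closure of the image of the étale fundamental group, one representation -/
theorem zarF_one {ℓ : ℕ} [hp : Fact ℓ.Prime] {G : Type} [Group G] {A : Type} [Group A]
    {τ : A →* G} {mon : A → Matrix (Fin n) (Fin n) ℤ} {β : G →* Matrix (Fin n) (Fin n) ℤ_[ℓ]}
    (hcomp : ∀ γ, β (τ γ) = (mon γ).map (Int.cast : ℤ → ℤ_[ℓ])) {Z : Matrix (Fin n) (Fin n) ℤ}
    (hbig : ∀ t : Matrix (Fin n) (Fin n) ℂ,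
      tᵀ * Z.map (Int.cast : ℤ → ℂ) * t = Z.map (Int.cast : ℤ → ℂ) → t.det = 1 →
      InTop (fun γ => (mon γ).map (Int.cast : ℤ → ℂ)) t) :
    GR.ZarF (fun _ : Unit => qrep β) (fun _ => Z.map (Int.cast : ℤ → ℚ_[ℓ])) := by
  obtain ⟨ε⟩ := _root_.W435.PG.emb ℓ
  rintro f ⟨Δ, hΔ, hf⟩ t ht htd
  have hε : (Z.map (Int.cast : ℤ → ℚ_[ℓ])).map ε = Z.map (Int.cast : ℤ → ℂ) := by
    ext a b
    simp
  have h1 := hbig ((t ()).map ε) (by
    have h2 := congrArg (fun A => A.map ε) (ht ())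
    beta_reduce at h2
    rw [Matrix.map_mul, Matrix.map_mul, Matrix.transpose_map, hε] at h2
    exact h2) (by
    have h2 := ε.map_det (t ())
    rw [RingHom.mapMatrix_apply] at h2
    rw [← h2, htd (), map_one])
  have hΔ' : (Δ.comap τ).FiniteIndex := by
    refine ⟨?_⟩
    rw [Subgroup.index_comap]
    exact fun h => hΔ.index_ne_zero (Subgroup.index_eq_zero_of_relIndex_eq_zero h)
  have h2 := h1 _ ⟨Δ.comap τ, hΔ', fun γ hγ => by
    have h3 := lift_eval1 ε (g := (mon γ).map (Int.cast : ℤ → ℂ)) (t := qrep β (τ γ))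
      (fun a b => by
        have h4 := congrFun (congrFun (hcomp γ) a) b
        rw [Matrix.map_apply] at h4
        show ((mon γ a b : ℤ) : ℂ) = ε (algebraMap ℤ_[ℓ] ℚ_[ℓ] (β (τ γ) a b))
        rw [h4, map_intCast, map_intCast]) f
    have h5 : GR.evf (fun _ : Unit => qrep β (τ γ)) f = 0 := hf (τ γ) hγ
    rw [h5, map_zero] at h3
    exact h3⟩
  have h3 := lift_eval1 ε (g := (t ()).map ε) (t := t ()) (fun a b => rfl) f
  rw [h2] at h3
  exact (map_eq_zero ε).1 h3.symm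

end zar

section final

variable {ι : Type} [Fintype ι] {n : ι → ℕ}

/-- **the Tate conjecture for divisors and the Brauer groups of the fibres outside one thin set** -/
theorem br_fibres (hn : ∀ i, 5 ≤ n i) (Z : ∀ i, Matrix (Fin (n i)) (Fin (n i)) ℤ)
    (hZs : ∀ i, (Z i)ᵀ = Z i) (hZ : ∀ i, (Z i).det ≠ 0) {G : Type} [Group G] [TopologicalSpace G]
    [IsTopologicalGroup G] [CompactSpace G] {A : Type} [Group A] (τ : A →* G)
    (β : ∀ (i : ι) (ℓ : ℕ) [Fact ℓ.Prime], G →* Matrix (Fin (n i)) (Fin (n i)) ℤ_[ℓ])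
    (hβ : ∀ (i : ι) (ℓ : ℕ) [Fact ℓ.Prime], Continuous (β i ℓ))
    (hiso : ∀ (i : ι) (ℓ : ℕ) [Fact ℓ.Prime] (g : G), (β i ℓ g)ᵀ *
      (Z i).map (Int.cast : ℤ → ℤ_[ℓ]) * β i ℓ g = (Z i).map (Int.cast : ℤ → ℤ_[ℓ]))
    (mon : ∀ i, A → Matrix (Fin (n i)) (Fin (n i)) ℤ)
    (hcomp : ∀ (i : ι) (ℓ : ℕ) [Fact ℓ.Prime] (γ : A),
      β i ℓ (τ γ) = (mon i γ).map (Int.cast : ℤ → ℤ_[ℓ]))
    (hbig : ∀ (i : ι) (t : Matrix (Fin (n i)) (Fin (n i)) ℂ),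
      tᵀ * (Z i).map (Int.cast : ℤ → ℂ) * t = (Z i).map (Int.cast : ℤ → ℂ) → t.det = 1 →
      InTop (fun γ => (mon i γ).map (Int.cast : ℤ → ℂ)) t) :
    ∃ N : Subgroup G, N.Normal ∧ IsOpen (N : Set G) ∧
      ∀ (K : Type) [Field K] [NumberField K] (s : GK K →* G), Continuous s →
        (∀ g, ∃ σ, (s σ)⁻¹ * g ∈ N) →
      ∀ (S : Set (HeightOneSpectrum (𝓞 K))), S.Finite →
      ∀ (P : ι → HeightOneSpectrum (𝓞 K) → Polynomial ℚ),
        (∀ (i : ι) (ℓ : ℕ) [Fact ℓ.Prime], ∀ v ∉ S, (ℓ : 𝓞 K) ∉ v.asIdeal → ∀ σ : GK K,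
          IsFrobenius v σ → (genM ℓ (β i ℓ (s σ⁻¹))).charpoly =
            (P i v).map (algebraMap ℚ ℚ_[ℓ])) →
      ∃ Λ : Set ℕ, Y142.ZI.DensityZero {ℓ | ℓ.Prime ∧ ℓ ∉ Λ} ∧ ((∀ i, Even (n i)) → Λ = Set.univ) ∧
        ∀ d : ℕ, ∃ C : ℕ, 0 < C ∧ ∀ U : Subgroup (GK K), U.index ≠ 0 → U.index ≤ d →
          ∀ (ℓ : ℕ) [Fact ℓ.Prime], ℓ ∈ Λ → ∀ (i : ι) (x : Fin (n i) → ℚ_[ℓ]),
            (∀ σ ∈ U, ∀ a, ‖(genM ℓ (β i ℓ (s σ)) *ᵥ x - x) a‖ ≤ 1) →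
            ∀ a, ‖(C : ℚ_[ℓ]) * x a‖ ≤ 1 := by
  classical
  -- the primes
  have hprime : ∀ i, ∃ ℓ : ℕ, ℓ.Prime ∧ ¬ ℓ ∣ n i - 1 := by
    intro i
    obtain ⟨ℓ, hℓ, hp⟩ := Nat.exists_infinite_primes (n i)
    refine ⟨ℓ, hp, fun h => ?_⟩
    have h1 := hn i
    have := Nat.le_of_dvd (by omega) h
    omega
  choose p hp hpd using hprime
  haveI : ∀ i, Fact (p i).Prime := fun i => ⟨hp i⟩
  have hmapQ : ∀ (i : ι) (ℓ : ℕ) [Fact ℓ.Prime],
      genM ℓ ((Z i).map (Int.cast : ℤ → ℤ_[ℓ])) = (Z i).map (Int.cast : ℤ → ℚ_[ℓ]) := by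
    intro i ℓ _
    ext a b
    simp [genM]
  have hsymQ : ∀ (i : ι) (ℓ : ℕ) [Fact ℓ.Prime], ((Z i).map (Int.cast : ℤ → ℚ_[ℓ]))ᵀ =
      (Z i).map (Int.cast : ℤ → ℚ_[ℓ]) := by
    intro i ℓ _
    rw [← Matrix.transpose_map, hZs]
  have hdetQ : ∀ (i : ι) (ℓ : ℕ) [Fact ℓ.Prime], ((Z i).map (Int.cast : ℤ → ℚ_[ℓ])).det ≠ 0 := by
    intro i ℓ _
    have h1 : ((Z i).map (Int.cast : ℤ → ℚ_[ℓ])).det = (((Z i).det : ℤ) : ℚ_[ℓ]) := by
      have := (Int.castRingHom ℚ_[ℓ]).map_det (Z i)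
      rw [RingHom.mapMatrix_apply] at this
      exact this.symm
    rw [h1]
    exact_mod_cast hZ i
  have hisoQ : ∀ (i : ι) (ℓ : ℕ) [Fact ℓ.Prime] (g : G), (qrep (β i ℓ) g)ᵀ *
      (Z i).map (Int.cast : ℤ → ℚ_[ℓ]) * qrep (β i ℓ) g = (Z i).map (Int.cast : ℤ → ℚ_[ℓ]) := by
    intro i ℓ _ g
    have h1 := congrArg (fun A => A.map (algebraMap ℤ_[ℓ] ℚ_[ℓ])) (hiso i ℓ g)
    beta_reduce at h1
    rw [Matrix.map_mul, Matrix.map_mul, Matrix.transpose_map] at h1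
    have h2 := hmapQ i ℓ
    unfold genM at h2
    rw [h2] at h1
    exact h1
  choose N hN hNo hfib using fun i => jtan_fibre (p := p i) (ι := Unit) (n := fun _ => n i)
    (β := fun _ => β i (p i)) (fun _ => hβ i (p i))
  refine ⟨⨅ i, N i, ?_, ?_, ?_⟩
  · exact Subgroup.normal_iInf_normal hN
  · rw [Subgroup.coe_iInf]
    exact isOpen_iInter_of_finite hNo
  intro K _ _ s hs hsN S hS P hP
  have hfull : ∀ (i : ι) (X : Matrix (Fin (n i)) (Fin (n i)) ℚ_[p i]),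
      SpLie ((Z i).map (Int.cast : ℤ → ℚ_[p i])) X →
      IsTangent (p i) ((qrep (β i (p i))).comp s) X := by
    intro i X hX
    haveI hfi : ((MonoidHom.id (GK K)).range).FiniteIndex := by
      rw [MonoidHom.range_eq_top.2 (fun x => ⟨x, rfl⟩)]
      infer_instance
    have h1 := hfib i (GK K) (GK K) s (MonoidHom.id (GK K)) hs continuous_id hfi
      (fun g => by
        obtain ⟨σ, hσ⟩ := hsN g
        exact ⟨σ, (Subgroup.mem_iInf.1 hσ) i⟩) (fun _ => X)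
      (GR.joint_of_zar (G := G) (ρ := fun _ : Unit => qrep (β i (p i)))
        (J := fun _ => (Z i).map (Int.cast : ℤ → ℚ_[p i]))
        (fun _ => continuous_qm.comp (hβ i (p i)))
        (fun _ => ⟨Or.inl ⟨hsymQ i (p i), hn i⟩, hdetQ i (p i)⟩)
        (fun _ => lt_of_lt_of_le (by norm_num) (hn i)) (fun _ g => ⟨1, by
          show (qrep (β i (p i)) g)ᵀ * (Z i).map (Int.cast : ℤ → ℚ_[p i]) * qrep (β i (p i)) g =
            (1 : ℚ_[p i]) • _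
          rw [one_smul]
          exact hisoQ i (p i) g⟩) (zarF_one (hcomp i (p i)) (hbig i)) (fun _ => X) (fun _ => hX))
    obtain ⟨σ, hσ⟩ := h1
    exact ⟨σ, hσ ()⟩
  -- each piece
  have hpiece : ∀ i, ∃ Λ : Set ℕ, Y142.ZI.DensityZero {ℓ | ℓ.Prime ∧ ℓ ∉ Λ} ∧
      (Even (n i) → Λ = Set.univ) ∧ ∀ D : ℕ, 0 < D → ∃ C : ℕ, 0 < C ∧
        ∀ (ℓ : ℕ) [Fact ℓ.Prime], ℓ ∈ Λ → BR.Kills ℓ ((β i ℓ).comp s) D C := by
    intro i
    rcases Nat.even_or_odd (n i) with he | ho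
    · refine ⟨Set.univ, ?_, fun _ => rfl, fun D hD => ?_⟩
      · refine densityZero_finite (Set.finite_empty.subset ?_)
        rintro ℓ ⟨-, h⟩
        exact absurd (Set.mem_univ _) h
      · obtain ⟨C, hC, hK⟩ := kills_even (s := MonoidHom.id (GK K)) he hS continuous_id (P := P i)
          (fun ℓ _ => (β i ℓ).comp s) (fun ℓ _ => (hβ i ℓ).comp hs)
          (fun ℓ _ v hv hℓ σ hσ => hP i ℓ v hv hℓ σ hσ) (ℓ₀ := p i) (hsymQ i (p i))
          (hdetQ i (p i)) (hfull i) hD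
        exact ⟨C, hC, fun ℓ _ _ => hK ℓ⟩
    · have hb : BR.Bounded fun ℓ _ => (β i ℓ).comp s := by
        refine BR.bounded_odd (s := MonoidHom.id (GK K)) (P := P i) ho (hn i) hS
          (fun ℓ _ => (β i ℓ).comp s) (fun ℓ _ => (hβ i ℓ).comp hs) (hZ i)
          (fun ℓ _ => ⟨(hβ i ℓ).comp hs, ?_, ?_, fun g => hiso i ℓ (s g),
            fun v hv hvℓ σ hσ => ?_⟩) (p i) (hpd i) ?_
        · rw [← Matrix.transpose_map, hZs]
        · have hdet : ((Z i).map (Int.cast : ℤ → ℤ_[ℓ])).det = (((Z i).det : ℤ) : ℤ_[ℓ]) := by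
            have := (Int.castRingHom ℤ_[ℓ]).map_det (Z i)
            rw [RingHom.mapMatrix_apply] at this
            exact this.symm
          rw [hdet]
          exact_mod_cast hZ i
        · rw [← hP i ℓ v hv hvℓ σ hσ, ← Matrix.charpoly_map]
          rfl
        · intro X hX
          refine hfull i X ?_
          have h1 : (genM (p i) ((Z i).map (Int.cast : ℤ → ℤ_[p i])) * X)ᵀ =
            -(genM (p i) ((Z i).map (Int.cast : ℤ → ℤ_[p i])) * X) := hX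
          rw [hmapQ, transpose_mul, hsymQ] at h1
          show Xᵀ * _ + _ * X = 0
          rw [h1, neg_add_cancel]
      obtain ⟨Λ, hΛ, hΛC⟩ := hb
      exact ⟨Λ, hΛ, fun he => absurd he (Nat.not_even_iff_odd.2 ho), hΛC⟩
  choose Λ hΛ hΛe hΛC using hpiece
  refine ⟨⋂ i, Λ i, ?_, fun he => ?_, fun d => ?_⟩
  · refine (PO.dens_iUnion hΛ).mono ?_
    rintro ℓ ⟨hp, hℓ⟩
    rw [Set.mem_iInter] at hℓ
    push Not at hℓ
    obtain ⟨i, hi⟩ := hℓ
    exact ⟨i, hp, hi⟩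
  · rw [Set.iInter_eq_univ]
    exact fun i => hΛe i (he i)
  · choose C hC hK using fun i => hΛC i d.factorial d.factorial_pos
    refine ⟨∏ i, C i, Finset.prod_pos fun i _ => hC i, fun U hU hUd ℓ hp hℓ i x hx => ?_⟩
    refine ((hK i ℓ (Set.mem_iInter.1 hℓ i)).of_dvd
      (Finset.dvd_prod_of_mem C (Finset.mem_univ i))) x fun g a => ?_
    obtain ⟨k, hk, hkU, hmem⟩ := U.exists_pow_mem_of_index_ne_zero hU g
    obtain ⟨j, hj⟩ := Nat.dvd_factorial hk (hkU.trans hUd)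
    refine hx _ ?_ a
    rw [hj, pow_mul]
    exact U.pow_mem hmem j

end final

end Pool.Agent.T2H36.FB
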