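import Pool.Agent.T2H36.FB.A3

set_option autoImplicit false
set_option linter.unusedSectionVars false
set_option linter.style.haveILetI false

/-!
Fibres of families, part 4: the final theorem.
-/

open MvPolynomial Matrix Filter Topology NumberField IsDedekindDomain
open Pool.Agent.Y142.ZO Pool.Agent.Y142.ZI
open Pool.Agent.Y142.ZS (Sim SpLie)
open Pool.Agent.Y95.MT
open Pool.Agent.W544.PG (HS BD bl)
open Pool.Agent.T2H36.MG (blk InG)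
open Pool.Agent.T2H36.IX

namespace Pool.Agent.T2H36.FB

open Pool.Agent.R932 Pool.Agent.R932.OP

variable {κ : Type} [Fintype κ] [DecidableEq κ] {ι : Type} [Fintype ι] [DecidableEq ι] {n : ι → ℕ}

/-- **fibres of families** -/
theorem fibres (hn : ∀ i, (Odd (n i) ∧ 5 ≤ n i) ∨ (Even (n i) ∧ 8 ≤ n i))
    (Q : ∀ i, Matrix (Fin (n i)) (Fin (n i)) ℚ) (hQs : ∀ i, (Q i)ᵀ = Q i)
    (hQ : ∀ i, (Q i).det ≠ 0) {G : Type} [Group G] [TopologicalSpace G] [IsTopologicalGroup G]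
    [CompactSpace G] {A : Type} [Group A] (τ : A →* G)
    (α : ∀ (ℓ : ℕ) [Fact ℓ.Prime], G →* Matrix κ κ ℤ_[ℓ])
    (hα : ∀ (ℓ : ℕ) [Fact ℓ.Prime], (Set.range (α ℓ)).Finite)
    (β : ∀ (i : ι) (ℓ : ℕ) [Fact ℓ.Prime], G →* Matrix (Fin (n i)) (Fin (n i)) ℤ_[ℓ])
    (hβ : ∀ (i : ι) (ℓ : ℕ) [Fact ℓ.Prime], Continuous (β i ℓ))
    (hiso : ∀ (i : ι) (ℓ : ℕ) [Fact ℓ.Prime] (g : G),
      (qm (β i ℓ g))ᵀ * (Q i).map (algebraMap ℚ ℚ_[ℓ]) * qm (β i ℓ g) =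
        (Q i).map (algebraMap ℚ ℚ_[ℓ]))
    (mon : A → Matrix (κ ⊕ Σ i, Fin (n i)) (κ ⊕ Σ i, Fin (n i)) ℤ)
    (hcomp : ∀ (ℓ : ℕ) [Fact ℓ.Prime] (γ : A), totS (α ℓ) (fun i => β i ℓ) (τ γ) =
      (mon γ).map (Int.cast : ℤ → ℤ_[ℓ]))
    (hbig : ∀ t : ∀ i, Matrix (Fin (n i)) (Fin (n i)) ℂ,
      (∀ i, (t i)ᵀ * (Q i).map (algebraMap ℚ ℂ) * t i = (Q i).map (algebraMap ℚ ℂ)) →
      (∀ i, (t i).det = 1) → InTop (fun γ => (mon γ).map (Int.cast : ℤ → ℂ)) (MG.emb κ t)) :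
    ∃ N : Subgroup G, N.Normal ∧ IsOpen (N : Set G) ∧
      ∀ (K : Type) [Field K] [NumberField K] (s : GK K →* G), Continuous s →
        (∀ g, ∃ σ, (s σ)⁻¹ * g ∈ N) →
      ∀ (T : ∀ i, HS (n i)), (∀ i, (T i).Q = Q i) →
        MG.Big κ (fun i => (T i).Q) (hSum κ T) →
      ∀ (F : Type) [Field F] [NumberField F] (r : GK F →* GK K), Continuous r →
        r.range.FiniteIndex →
      ∀ (S : Set (HeightOneSpectrum (𝓞 F))), S.Finite →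
      ∀ (P : ι → HeightOneSpectrum (𝓞 F) → Polynomial ℚ),
        (∀ (i : ι) (ℓ : ℕ) [Fact ℓ.Prime], ∀ v ∉ S, (ℓ : 𝓞 F) ∉ v.asIdeal → ∀ σ : GK F,
          IsFrobenius v σ → (qm (β i ℓ (s (r σ⁻¹)))).charpoly =
            (P i v).map (algebraMap ℚ ℚ_[ℓ])) →
        (∀ (ℓ : ℕ) [Fact ℓ.Prime], Conn ((totS (α ℓ) (fun i => β i ℓ)).comp (s.comp r))) →
      ∃ Λ : Set ℕ, Y142.ZI.DensityZero {ℓ | ℓ.Prime ∧ ℓ ∉ Λ} ∧
        AdelicLe (2 ^ Fintype.card ι) (hSum κ T)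
          (fun ℓ _ => (totS (α ℓ) (fun i => β i ℓ)).comp (s.comp r)) Λ := by
  classical
  obtain ⟨ℓ₀, hp, hgood⟩ := exists_good Q hQ hn
  haveI : Fact ℓ₀.Prime := ⟨hp⟩
  have hinj : Function.Injective (algebraMap ℚ ℚ_[ℓ₀]) := (algebraMap ℚ ℚ_[ℓ₀]).injective
  have hzar : GR.ZarF (fun i => qrep (β i ℓ₀)) (fun i => (Q i).map (algebraMap ℚ ℚ_[ℓ₀])) :=
    zarF_of_top (hcomp ℓ₀) hbig
  obtain ⟨N, hN, hNo, hfib⟩ := jtan_fibre (p := ℓ₀) (fun i => hβ i ℓ₀)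
  refine ⟨N, hN, hNo, ?_⟩
  intro K _ _ s hs hsN T hTQ hB F _ _ r hr hrf S hS P hP hconn
  have hposn : ∀ i, 0 < n i := fun i => by rcases hn i with h | h <;> omega
  have hfull : ∀ X : ∀ i, Matrix (Fin (n i)) (Fin (n i)) ℚ_[ℓ₀],
      (∀ i, SpLie ((Q i).map (algebraMap ℚ ℚ_[ℓ₀])) (X i)) →
      PO.JTan ℓ₀ (fun i => (qrep (β i ℓ₀)).comp (s.comp r)) X := by
    intro X hX
    refine hfib (GK K) (GK F) s r hs hr hrf hsN X ?_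
    refine GR.joint_of_zar (G := G) (ρ := fun i => qrep (β i ℓ₀))
      (J := fun i => (Q i).map (algebraMap ℚ ℚ_[ℓ₀])) (fun i => continuous_qm.comp (hβ i ℓ₀))
      (fun i => ⟨Or.inl ⟨?_, ?_⟩, ?_⟩) hposn (fun i g => ⟨1, ?_⟩) hzar X hX
    · show ((Q i).map (algebraMap ℚ ℚ_[ℓ₀]))ᵀ = (Q i).map (algebraMap ℚ ℚ_[ℓ₀])
      rw [← Matrix.transpose_map, hQs]
    · rcases hn i with h | h <;> omega
    · show ((Q i).map (algebraMap ℚ ℚ_[ℓ₀])).det ≠ 0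
      have h1 : ((Q i).map (algebraMap ℚ ℚ_[ℓ₀])).det = algebraMap ℚ ℚ_[ℓ₀] (Q i).det := by
        rw [RingHom.map_det, RingHom.mapMatrix_apply]
      rw [h1]
      exact (_root_.map_ne_zero _).2 (hQ i)
    · show (qm (β i ℓ₀ g))ᵀ * (Q i).map (algebraMap ℚ ℚ_[ℓ₀]) * qm (β i ℓ₀ g) = (1 : ℚ_[ℓ₀]) • _
      rw [one_smul]
      exact hiso i ℓ₀ g
  have hkey := main_sumF (K := F) (Γ := GK F) (s := MonoidHom.id (GK F)) (T := T) (S := S) (P := P)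
    hB hS continuous_id (fun ℓ _ => (α ℓ).comp (s.comp r))
    (fun ℓ _ => (hα ℓ).subset (by
      rintro _ ⟨σ, rfl⟩
      exact ⟨_, rfl⟩))
    (fun i ℓ _ => (β i ℓ).comp (s.comp r))
    (fun i ℓ _ => ⟨(hβ i ℓ).comp (hs.comp hr), fun σ => by
      rw [hTQ]
      exact hiso i ℓ _, fun v hv hℓ σ hσ => hP i ℓ v hv hℓ σ hσ⟩)
    (fun ℓ _ => hconn ℓ) ℓ₀ (fun i => by rw [hTQ]; exact hgood i)
    (fun X hX => hfull X fun i => by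
      have := hX i
      rwa [hTQ] at this)
  exact hkey

end Pool.Agent.T2H36.FB
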