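import Pool.Agent.T2H36.FB.A4
import Pool.Agent.T2H36.MG.H6

set_option autoImplicit false
set_option linter.unusedSectionVars false
set_option linter.style.haveILetI false

/-!
Fibres of families: the Mumford-Tate conjecture for one set of fibres at 100 percent of the primes.
-/

open MvPolynomial Matrix Filter Topology NumberField IsDedekindDomain
open Pool.Agent.Y142.ZO Pool.Agent.Y142.ZI
open Pool.Agent.Y142.ZS (Sim SpLie)
open Pool.Agent.Y95.MT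
open Pool.Agent.T2H36.MG (blk InG Good)
open Pool.Agent.T2H36.IX
open Pool.Agent.R932.PO (JTan IsForm Kind Fits Allows Sys JL det_map_ne)
open Pool.Agent.R932.EV (SS SC)

namespace Pool.Agent.T2H36.FB

open Pool.Agent.R932 Pool.Agent.R932.OP

variable {κ : Type} [Fintype κ] [DecidableEq κ] {ι : Type} [Fintype ι] [DecidableEq ι] {n : ι → ℕ}

/-- the condition on the rank -/
def RankOk (sp : Bool) (m : ℕ) : Prop :=
  if sp then 0 < m else (Odd m ∧ 5 ≤ m) ∨ (Even m ∧ 8 ≤ m)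

/-- **the choice of the prime** -/
theorem exists_goodM {sp : ι → Bool} {Q : ∀ i, Matrix (Fin (n i)) (Fin (n i)) ℚ}
    (hQ : ∀ i, (Q i).det ≠ 0) (hQs : ∀ i, (Q i)ᵀ = if sp i then -Q i else Q i)
    (hn : ∀ i, RankOk (sp i) (n i)) :
    ∃ ℓ : ℕ, ℓ.Prime ∧ ∀ i, Good (sp i) (n i) (Q i) ℓ := by
  let B : ℕ := ∑ i, (n i + (Q i).det.num.natAbs + (Q i).det.den)
  obtain ⟨ℓ, hℓ, hp⟩ := Nat.exists_infinite_primes (B + 3)
  refine ⟨ℓ, hp, fun i => ?_⟩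
  have hB : n i + (Q i).det.num.natAbs + (Q i).det.den ≤ B :=
    Finset.single_le_sum (f := fun i => n i + (Q i).det.num.natAbs + (Q i).det.den)
      (fun _ _ => Nat.zero_le _) (Finset.mem_univ i)
  have h1 := hn i
  have h2 := hQs i
  unfold RankOk at h1
  cases hsp : sp i with
  | true =>
    rw [hsp, if_pos rfl] at h1 h2
    exact ⟨h1, h2, by omega⟩
  | false =>
    rw [hsp] at h1 h2
    simp only [Bool.false_eq_true, if_false] at h1 h2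
    refine ⟨h2, ?_⟩
    rcases h1 with ⟨h1, h3⟩ | ⟨h1, h3⟩
    · refine Or.inl ⟨h1, h3, fun h => ?_⟩
      have := Nat.le_of_dvd (by omega) h
      omega
    · refine Or.inr ⟨h1, h3, fun h => ?_, ?_⟩
      · rcases (Nat.Prime.dvd_mul hp).1 h with h | h
        · have := Nat.le_of_dvd (by omega) h
          omega
        · have := Nat.le_of_dvd (by omega) h
          omega
      · rw [val_zero hp (by omega) (by omega) (hQ i)]
        exact Even.zero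

/-- **the Mumford-Tate conjecture for the fibres outside one thin set** -/
theorem fibres_mt {w : ℤ} (hw : w ≠ 0) {sp : ι → Bool} (hn : ∀ i, RankOk (sp i) (n i))
    (Q : ∀ i, Matrix (Fin (n i)) (Fin (n i)) ℚ) (hQs : ∀ i, (Q i)ᵀ = if sp i then -Q i else Q i)
    (hQ : ∀ i, (Q i).det ≠ 0) {G : Type} [Group G] [TopologicalSpace G] [IsTopologicalGroup G]
    [CompactSpace G] {A : Type} [Group A] (τ : A →* G)
    (α : ∀ (ℓ : ℕ) [Fact ℓ.Prime], G →* Matrix κ κ ℤ_[ℓ])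
    (hα : ∀ (ℓ : ℕ) [Fact ℓ.Prime], (Set.range (α ℓ)).Finite)
    (χ : ∀ (ℓ : ℕ) [Fact ℓ.Prime], G →* ℚ_[ℓ])
    (β : ∀ (i : ι) (ℓ : ℕ) [Fact ℓ.Prime], G →* Matrix (Fin (n i)) (Fin (n i)) ℤ_[ℓ])
    (hβ : ∀ (i : ι) (ℓ : ℕ) [Fact ℓ.Prime], Continuous (β i ℓ))
    (hsim : ∀ (i : ι) (ℓ : ℕ) [Fact ℓ.Prime] (g : G),
      Sim (JL Q ℓ i) (qrep (β i ℓ) g) (χ ℓ g ^ (bif sp i then 1 else 0)))
    (mon : A → Matrix (κ ⊕ Σ i, Fin (n i)) (κ ⊕ Σ i, Fin (n i)) ℤ)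
    (hcomp : ∀ (ℓ : ℕ) [Fact ℓ.Prime] (γ : A), totS (α ℓ) (fun i => β i ℓ) (τ γ) =
      (mon γ).map (Int.cast : ℤ → ℤ_[ℓ]))
    (hbig : ∀ t : ∀ i, Matrix (Fin (n i)) (Fin (n i)) ℂ,
      (∀ i, (t i)ᵀ * (Q i).map (algebraMap ℚ ℂ) * t i = (Q i).map (algebraMap ℚ ℂ)) →
      (∀ i, (t i).det = 1) → InTop (fun γ => (mon γ).map (Int.cast : ℤ → ℂ)) (MG.emb κ t)) :
    ∃ N : Subgroup G, N.Normal ∧ IsOpen (N : Set G) ∧
      ∀ (K : Type) [Field K] [NumberField K] (s : GK K →* G), Continuous s →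
        (∀ g, ∃ σ, (s σ)⁻¹ * g ∈ N) →
      ∀ (S : Set (HeightOneSpectrum (𝓞 K))), S.Finite →
        (∀ (ℓ : ℕ) [Fact ℓ.Prime], ∀ v ∉ S, (ℓ : 𝓞 K) ∉ v.asIdeal → ∀ σ : GK K,
          IsFrobenius v σ → χ ℓ (s σ⁻¹) = (Ideal.absNorm v.asIdeal : ℚ_[ℓ]) ^ w) →
      ∀ (P : ι → HeightOneSpectrum (𝓞 K) → Polynomial ℚ),
        (∀ (i : ι) (ℓ : ℕ) [Fact ℓ.Prime], ∀ v ∉ S, (ℓ : 𝓞 K) ∉ v.asIdeal → ∀ σ : GK K,
          IsFrobenius v σ → (qrep (β i ℓ) (s σ⁻¹)).charpoly =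
            (P i v).map (algebraMap ℚ ℚ_[ℓ])) →
      ∀ (h : ℂ → Matrix (κ ⊕ Σ i, Fin (n i)) (κ ⊕ Σ i, Fin (n i)) ℂ),
        MG.Hod κ Q (fun i => bif sp i then 1 else 0) h → MG.Big κ Q h →
      Y142.ZI.DensityZero {ℓ | ∃ _ : Fact ℓ.Prime,
        ¬ MTC h ((toQ (totS (α ℓ) (fun i => β i ℓ))).comp s)} ∧
      ∀ (ℓ : ℕ) [Fact ℓ.Prime], MTC h ((toQ (totS (α ℓ) (fun i => β i ℓ))).comp s) ↔
        ∀ i, SS ((qrep (β i ℓ)).comp s) ∧ SC ((qrep (β i ℓ)).comp s) := by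
  classical
  obtain ⟨ℓ₀, hp, hgood⟩ := exists_goodM hQ hQs hn
  haveI : Fact ℓ₀.Prime := ⟨hp⟩
  have hzar : GR.ZarF (fun i => qrep (β i ℓ₀)) (fun i => (Q i).map (algebraMap ℚ ℚ_[ℓ₀])) :=
    zarF_of_top (hcomp ℓ₀) hbig
  obtain ⟨N, hN, hNo, hfib⟩ := jtan_fibre (p := ℓ₀) (fun i => hβ i ℓ₀)
  refine ⟨N, hN, hNo, ?_⟩
  intro K _ _ s hs hsN S hS hχ P hP h hh hb
  choose kd hfit hal hkd using fun i => (hgood i).kind
  have hek : ∀ i, (kd i = Kind.sym ∧ (bif sp i then 1 else 0) = 1) ∨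
      (kd i ≠ Kind.sym ∧ (bif sp i then 1 else 0) = 0) := by
    intro i
    rcases hkd i with ⟨h1, h2⟩ | ⟨h1, h2⟩
    · exact Or.inl ⟨h1, by rw [h2]; rfl⟩
    · exact Or.inr ⟨h1, by rw [h2]; rfl⟩
  have he1 : ∀ i, (bif sp i then 1 else 0) = 0 ∨ (bif sp i then 1 else 0) = 1 := fun i =>
    (hek i).elim (fun h => Or.inr h.2) fun h => Or.inl h.2
  have he : ∀ i, (bif sp i then 1 else 0) = 0 ∨ (Q i)ᵀ = -Q i := by
    intro i
    rcases hek i with ⟨h1, -⟩ | ⟨-, h2⟩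
    · have h3 := hfit i
      rw [h1] at h3
      exact Or.inr h3.1
    · exact Or.inl h2
  have hpos : ∀ i, 0 < n i := fun i => (hfit i).pos
  have hsy : ∀ i, (Q i)ᵀ = Q i → (bif sp i then 1 else 0) = 0 := by
    intro i hsym
    rcases hek i with ⟨h1, -⟩ | ⟨-, h2⟩
    · exfalso
      have h3 := hfit i
      rw [h1] at h3
      have h4 := h3.1
      rw [hsym] at h4
      have h5 : Q i = 0 := by
        ext a b
        have h6 := congrFun (congrFun h4 a) b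
        rw [Matrix.neg_apply] at h6
        rw [Matrix.zero_apply]
        linarith
      have : Nonempty (Fin (n i)) := ⟨⟨0, hpos i⟩⟩
      exact hQ i (by rw [h5, Matrix.det_zero])
    · exact h2
  have hform : ∀ i : ι, IsForm (JL Q ℓ₀ i) := fun i =>
    ((hfit i).map (algebraMap ℚ ℚ_[ℓ₀])).isForm (det_map_ne (algebraMap ℚ ℚ_[ℓ₀]) (hQ i))
  have htot : ∀ (ℓ : ℕ) [Fact ℓ.Prime], (toQ (totS (α ℓ) (fun i => β i ℓ))).comp s =
      MG.tot' ((toQ (α ℓ)).comp s) (fun i => (qrep (β i ℓ)).comp s) := by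
    intro ℓ _
    rw [toQ_totS]
    rfl
  have hαf : ∀ (ℓ : ℕ) [Fact ℓ.Prime], (Set.range ((toQ (α ℓ)).comp s)).Finite := by
    intro ℓ _
    refine ((hα ℓ).image (fun m : Matrix κ κ ℤ_[ℓ] => m.map (algebraMap ℤ_[ℓ] ℚ_[ℓ]))).subset ?_
    rintro _ ⟨σ, rfl⟩
    exact ⟨_, ⟨s σ, rfl⟩, rfl⟩
  have hfull : ∀ X : ∀ i, Matrix (Fin (n i)) (Fin (n i)) ℚ_[ℓ₀], (∀ i, SpLie (JL Q ℓ₀ i) (X i)) →
      JTan ℓ₀ (fun i => (qrep (β i ℓ₀)).comp s) X := by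
    intro X hX
    haveI : ((MonoidHom.id (GK K)).range).FiniteIndex := by
      rw [MonoidHom.range_eq_top.2 (fun x => ⟨x, rfl⟩)]
      infer_instance
    exact hfib (GK K) (GK K) s (MonoidHom.id (GK K)) hs continuous_id this hsN X
      (GR.joint_of_zar (G := G) (ρ := fun i => qrep (β i ℓ₀))
        (J := fun i => (Q i).map (algebraMap ℚ ℚ_[ℓ₀])) (fun i => continuous_qm.comp (hβ i ℓ₀))
        hform hpos (fun i g => ⟨_, hsim i ℓ₀ g⟩) hzar X hX)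
  have hχinf : ∀ (ℓ : ℕ) [Fact ℓ.Prime], ∃ σ, ∀ k : ℕ, 0 < k → (χ ℓ).comp s σ ^ k ≠ 1 := by
    intro ℓ hℓ
    obtain ⟨v, hv, -⟩ := Y405.ZO.t K Set.univ isOpen_univ ⟨1, trivial⟩
      (S ∪ {v | (ℓ : 𝓞 K) ∈ v.asIdeal}) (hS.union (finite_above ℓ hℓ.out))
    obtain ⟨σ, hσ⟩ := Pool.Agent.W401.Frob.exists_frob v
    refine ⟨σ⁻¹, fun k hk h => ?_⟩
    rw [MonoidHom.comp_apply, hχ ℓ v (fun h => hv (Or.inl h)) (fun h => hv (Or.inr h)) σ hσ] at h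
    have h1 : ((Ideal.absNorm v.asIdeal : ℚ) ^ w) ^ k = 1 := by
      have h0 : ((((Ideal.absNorm v.asIdeal : ℚ) ^ w) ^ k : ℚ) : ℚ_[ℓ]) = ((1 : ℚ) : ℚ_[ℓ]) := by
        rw [Rat.cast_pow, Rat.cast_zpow, Rat.cast_natCast, Rat.cast_one]
        exact h
      exact Rat.cast_injective h0
    have h2 : 1 < (Ideal.absNorm v.asIdeal : ℚ) := by
      have h3 : Ideal.absNorm v.asIdeal ≠ 1 := fun h3 =>
        v.isPrime.ne_top (Ideal.absNorm_eq_one_iff.1 h3)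
      have h4 : Ideal.absNorm v.asIdeal ≠ 0 := fun h4 =>
        v.ne_bot (Ideal.absNorm_eq_zero_iff.1 h4)
      have h5 : 1 < Ideal.absNorm v.asIdeal := by omega
      exact_mod_cast h5
    rw [← zpow_natCast, ← _root_.zpow_mul] at h1
    have h3 : w * (k : ℤ) = 0 := by
      have h0 : (0 : ℚ) < (Ideal.absNorm v.asIdeal : ℚ) := lt_trans one_pos h2
      refine zpow_right_injective₀ (a := (Ideal.absNorm v.asIdeal : ℚ)) h0 h2.ne' ?_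
      show (Ideal.absNorm v.asIdeal : ℚ) ^ (w * (k : ℤ)) = (Ideal.absNorm v.asIdeal : ℚ) ^ (0 : ℤ)
      rw [h1, zpow_zero]
    rcases mul_eq_zero.1 h3 with h4 | h4
    · exact hw h4
    · have : (k : ℤ) ≠ 0 := by exact_mod_cast hk.ne'
      exact this h4
  have hone : MTC h (MG.tot' ((toQ (α ℓ₀)).comp s) (fun i => (qrep (β i ℓ₀)).comp s)) :=
    MG.mtc_of_full (χ := (χ ℓ₀).comp s) he1 he hsy hform hQ hpos hh hb
      (fun i => (continuous_qm.comp (hβ i ℓ₀)).comp hs)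
      (fun i g => hsim i ℓ₀ (s g)) (hχinf ℓ₀) (hαf ℓ₀) hfull
  have hkey := MG.mg_final (K := K) (P := P) (S := S) hS hQ hh hb hw (fun ℓ _ => (toQ (α ℓ)).comp s)
    (fun ℓ _ => hαf ℓ) (fun ℓ _ => (χ ℓ).comp s) (fun ℓ _ v hv hℓ σ hσ => hχ ℓ v hv hℓ σ hσ)
    (fun i ℓ _ => (qrep (β i ℓ)).comp s) (fun i ℓ _ => (continuous_qm.comp (hβ i ℓ)).comp hs)
    (fun i ℓ _ g => hsim i ℓ (s g)) (fun i ℓ _ v hv hℓ σ hσ => hP i ℓ v hv hℓ σ hσ) ℓ₀ hgood hone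
  simp only [htot]
  exact hkey

end Pool.Agent.T2H36.FB
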