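import Mathlib

set_option autoImplicit false
set_option linter.unusedSectionVars false

/-!
Fibres of families, part 1: the Frattini argument for compact groups of matrices over `ℤ_p`.
-/

open Matrix Filter Topology

namespace Pool.Agent.T2H36.FB

section cg

variable {J : Type} [Fintype J] [DecidableEq J] {p : ℕ} [hp : Fact p.Prime]

/-- congruence modulo `p ^ j` -/
def Cg (j : ℕ) (A B : Matrix J J ℤ_[p]) : Prop := ∃ C, A = B + ((p : ℤ_[p]) ^ j) • C

theorem Cg.mul_left {j : ℕ} {A B : Matrix J J ℤ_[p]} (h : Cg j A B) (D : Matrix J J ℤ_[p]) :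
    Cg j (D * A) (D * B) := by
  obtain ⟨C, rfl⟩ := h
  exact ⟨D * C, by rw [mul_add, mul_smul_comm]⟩

theorem Cg.mul_right {j : ℕ} {A B : Matrix J J ℤ_[p]} (h : Cg j A B) (D : Matrix J J ℤ_[p]) :
    Cg j (A * D) (B * D) := by
  obtain ⟨C, rfl⟩ := h
  exact ⟨C * D, by rw [add_mul, smul_mul_assoc]⟩

theorem Cg.symm {j : ℕ} {A B : Matrix J J ℤ_[p]} (h : Cg j A B) : Cg j B A := by
  obtain ⟨C, rfl⟩ := h
  exact ⟨-C, by rw [smul_neg, add_neg_cancel_right]⟩

theorem Cg.trans {j : ℕ} {A B C : Matrix J J ℤ_[p]} (h : Cg j A B) (h' : Cg j B C) : Cg j A C := by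
  obtain ⟨D, rfl⟩ := h
  obtain ⟨E, rfl⟩ := h'
  exact ⟨E + D, by rw [smul_add, add_assoc]⟩

theorem Cg.refl (j : ℕ) (A : Matrix J J ℤ_[p]) : Cg j A A := ⟨0, by simp⟩

theorem Cg.mono {i j : ℕ} (hij : i ≤ j) {A B : Matrix J J ℤ_[p]} (h : Cg j A B) : Cg i A B := by
  obtain ⟨C, rfl⟩ := h
  refine ⟨(p : ℤ_[p]) ^ (j - i) • C, ?_⟩
  rw [smul_smul, ← pow_add, Nat.add_sub_cancel' hij]

theorem red_eq {A B : Matrix J J ℤ_[p]}
    (h : A.map (PadicInt.toZMod : ℤ_[p] →+* ZMod p) = B.map (PadicInt.toZMod : ℤ_[p] →+* ZMod p)) :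
    ∃ C, A = B + (p : ℤ_[p]) • C := by
  have h1 : ∀ i j, ∃ y, A i j - B i j = (p : ℤ_[p]) * y := by
    intro i j
    have h2 : A i j - B i j ∈ RingHom.ker (PadicInt.toZMod : ℤ_[p] →+* ZMod p) := by
      rw [RingHom.mem_ker, map_sub, sub_eq_zero]
      exact congrFun (congrFun h i) j
    rw [PadicInt.ker_toZMod, PadicInt.maximalIdeal_eq_span_p, Ideal.mem_span_singleton] at h2
    obtain ⟨y, hy⟩ := h2
    exact ⟨y, hy⟩
  choose C hC using h1
  refine ⟨Matrix.of C, ?_⟩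
  ext i j
  have := hC i j
  rw [Matrix.add_apply, Matrix.smul_apply, Matrix.of_apply, smul_eq_mul, ← this]
  ring

theorem cg_of_red {j : ℕ} {B E : Matrix J J ℤ_[p]}
    (h : B.map (PadicInt.toZMod : ℤ_[p] →+* ZMod p) = E.map (PadicInt.toZMod : ℤ_[p] →+* ZMod p)) :
    Cg (j + 1) (1 + ((p : ℤ_[p]) ^ j) • B) (1 + ((p : ℤ_[p]) ^ j) • E) := by
  obtain ⟨C, rfl⟩ := red_eq h
  exact ⟨C, by rw [smul_add, smul_smul, ← pow_succ, add_assoc]⟩

theorem red_add (B D : Matrix J J ℤ_[p]) :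
    (B + (p : ℤ_[p]) • D).map (PadicInt.toZMod : ℤ_[p] →+* ZMod p) =
      B.map (PadicInt.toZMod : ℤ_[p] →+* ZMod p) := by
  ext i j
  rw [Matrix.map_apply, Matrix.map_apply, Matrix.add_apply, Matrix.smul_apply, smul_eq_mul, map_add,
    map_mul, map_natCast, ZMod.natCast_self, zero_mul, add_zero]

/-- powers -/
theorem pow_step {j : ℕ} (hj : 2 ≤ j) (B : Matrix J J ℤ_[p]) :
    ∃ D : Matrix J J ℤ_[p], (1 + ((p : ℤ_[p]) ^ j) • B) ^ p =
      1 + ((p : ℤ_[p]) ^ (j + 1)) • (B + (p : ℤ_[p]) • D) := by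
  set c : Matrix J J ℤ_[p] := ((p : ℤ_[p]) ^ j) • B with hc
  have h1 : ∀ i : ℕ, ∃ e, (1 + c) ^ i = 1 + c * e := by
    intro i
    induction i with
    | zero => exact ⟨0, by simp⟩
    | succ i ih =>
      obtain ⟨e, he⟩ := ih
      refine ⟨1 + e * (1 + c), ?_⟩
      rw [pow_succ, he]
      noncomm_ring
  choose e he using h1
  have h2 : ∑ i ∈ Finset.range p, (1 + c) ^ i = (p : ℤ_[p]) • (1 : Matrix J J ℤ_[p]) +
      c * ∑ i ∈ Finset.range p, e i := by
    simp_rw [he]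
    rw [Finset.sum_add_distrib, Finset.mul_sum]
    congr 1
    rw [Finset.sum_const, Finset.card_range, Nat.cast_smul_eq_nsmul]
  have h3 : (1 + c) ^ p - 1 = c * ∑ i ∈ Finset.range p, (1 + c) ^ i := by
    have := mul_geom_sum (1 + c) p
    rw [add_sub_cancel_left] at this
    exact this.symm
  rw [h2] at h3
  refine ⟨(p : ℤ_[p]) ^ (j - 2) • (B * (B * ∑ i ∈ Finset.range p, e i)), ?_⟩
  have h4 : (1 + c) ^ p = 1 + c * ((p : ℤ_[p]) • (1 : Matrix J J ℤ_[p]) +
      c * ∑ i ∈ Finset.range p, e i) := by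
    rw [← h3]; abel
  rw [h4, hc]
  congr 1
  simp only [mul_add, smul_add, Matrix.smul_mul, Matrix.mul_smul, mul_one, smul_smul]
  congr 2
  · ring
  · rw [← pow_add, ← pow_succ', ← pow_add]
    congr 1
    omega

theorem eq_of_cg {A B : Matrix J J ℤ_[p]} (h : ∀ j, Cg j A B) : A = B := by
  ext a b
  by_contra hne
  have h0 : ‖A a b - B a b‖ ≠ 0 := by
    rw [norm_ne_zero_iff, sub_ne_zero]
    exact hne
  have hpos : 0 < ‖A a b - B a b‖ := lt_of_le_of_ne (norm_nonneg _) (Ne.symm h0)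
  have hp1 : (1 : ℝ) < p := by exact_mod_cast hp.out.one_lt
  obtain ⟨j, hj⟩ := exists_pow_lt_of_lt_one hpos (inv_lt_one_of_one_lt₀ hp1)
  obtain ⟨C, hC⟩ := h j
  have h1 : A a b - B a b = (p : ℤ_[p]) ^ j * C a b := by
    rw [hC, Matrix.add_apply, Matrix.smul_apply, smul_eq_mul]
    ring
  have h2 : ‖A a b - B a b‖ ≤ ((p : ℝ)⁻¹) ^ j := by
    rw [h1, norm_mul, norm_pow, PadicInt.norm_p]
    exact mul_le_of_le_one_right (by positivity) (PadicInt.norm_le_one _)
  linarith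

end cg

section frattini

variable {J : Type} [Fintype J] [DecidableEq J] {p : ℕ} [hp : Fact p.Prime]
  {G : Type} [Group G] (R : G →* Matrix J J ℤ_[p])

/-- the congruence subgroups -/
def AA (j : ℕ) : Subgroup G where
  carrier := {σ | Cg j (R σ) 1}
  one_mem' := by
    show Cg j (R 1) 1
    rw [map_one]
    exact Cg.refl _ _
  mul_mem' := by
    intro a b ha hb
    show Cg j (R (a * b)) 1
    rw [map_mul]
    have h1 := Cg.mul_left (A := R b) (B := 1) hb (R a)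
    rw [mul_one] at h1
    exact h1.trans ha
  inv_mem' := by
    intro a ha
    show Cg j (R a⁻¹) 1
    have h1 := Cg.mul_left (A := R a) (B := 1) ha (R a⁻¹)
    rw [mul_one, ← map_mul, inv_mul_cancel, map_one] at h1
    exact h1.symm

variable {R}

theorem mem_AA {j : ℕ} {σ : G} : σ ∈ AA R j ↔ Cg j (R σ) 1 := Iff.rfl

theorem AA_normal (j : ℕ) : (AA R j).Normal := by
  refine ⟨fun a ha g => ?_⟩
  rw [mem_AA] at ha ⊢
  have h1 := (Cg.mul_left ha (R g)).mul_right (R g⁻¹)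
  rw [mul_one, ← map_mul, ← map_mul, ← map_mul, mul_inv_cancel, map_one] at h1
  exact h1

theorem AA_form {j : ℕ} {σ : G} (h : σ ∈ AA R j) : ∃ B, R σ = 1 + ((p : ℤ_[p]) ^ j) • B := h

variable (R) in
/-- the graded pieces -/
def VV (j : ℕ) : Set (Matrix J J (ZMod p)) :=
  {b | ∃ (σ : G) (B : Matrix J J ℤ_[p]), R σ = 1 + ((p : ℤ_[p]) ^ j) • B ∧
    B.map (PadicInt.toZMod : ℤ_[p] →+* ZMod p) = b}

theorem VV_succ {j : ℕ} (hj : 2 ≤ j) : VV R j ⊆ VV R (j + 1) := by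
  rintro _ ⟨σ, B, hB, rfl⟩
  obtain ⟨D, hD⟩ := pow_step hj B
  exact ⟨σ ^ p, _, by rw [map_pow, hB, hD], red_add _ _⟩

theorem VV_stab : ∃ k, 2 ≤ k ∧ ∀ j, k ≤ j → VV R j = VV R k := by
  have hmono : Monotone fun j => VV R (j + 2) :=
    monotone_nat_of_le_succ fun j => VV_succ (R := R) (j := j + 2) (by omega)
  obtain ⟨n, hn⟩ := WellFoundedGT.monotone_chain_condition ⟨fun j => VV R (j + 2), hmono⟩
  refine ⟨n + 2, by omega, fun j hj => ?_⟩
  have h1 := hn (j - 2) (by omega)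
  change VV R (n + 2) = VV R (j - 2 + 2) at h1
  rw [h1]
  congr 1
  omega

variable [TopologicalSpace G]

theorem AA_open [IsTopologicalGroup G] (hR : Continuous R) (j : ℕ) : IsOpen (AA R j : Set G) := by
  refine Subgroup.isOpen_of_mem_nhds _ (g := 1) ?_
  have h1 : ∀ a b : J, ∀ᶠ σ in 𝓝 (1 : G), ‖R σ a b - (1 : Matrix J J ℤ_[p]) a b‖ <
      (p : ℝ) ^ (-(j : ℤ) + 1) := by
    intro a b
    have hc : Continuous fun σ : G => ‖R σ a b - (1 : Matrix J J ℤ_[p]) a b‖ :=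
      (((continuous_apply_apply a b).comp hR).sub continuous_const).norm
    have h2 : ‖R 1 a b - (1 : Matrix J J ℤ_[p]) a b‖ < (p : ℝ) ^ (-(j : ℤ) + 1) := by
      rw [map_one, sub_self, norm_zero]
      have : (0 : ℝ) < p := by exact_mod_cast hp.out.pos
      positivity
    exact (hc.tendsto 1).eventually (gt_mem_nhds h2)
  have h2 := Filter.eventually_all.2 fun a => Filter.eventually_all.2 fun b => h1 a b
  filter_upwards [h2] with σ hσ
  show Cg j (R σ) 1
  have h3 : ∀ a b : J, ∃ y, R σ a b - (1 : Matrix J J ℤ_[p]) a b = (p : ℤ_[p]) ^ j * y := by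
    intro a b
    have h4 := (PadicInt.norm_lt_pow_iff_norm_le_pow_sub_one _ _).1 (hσ a b)
    rw [add_sub_cancel_right] at h4
    have h5 := (PadicInt.norm_le_pow_iff_mem_span_pow _ j).1 h4
    rw [Ideal.mem_span_singleton] at h5
    obtain ⟨y, hy⟩ := h5
    exact ⟨y, hy⟩
  choose C hC using h3
  refine ⟨Matrix.of C, ?_⟩
  ext a b
  have := hC a b
  rw [Matrix.add_apply, Matrix.smul_apply, Matrix.of_apply, smul_eq_mul, ← this]
  ring

/-- **the Frattini argument** -/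
theorem frattini [IsTopologicalGroup G] (hR : Continuous R) :
    ∃ N : Subgroup G, N.Normal ∧ IsOpen (N : Set G) ∧ ∀ (H : Type) [Group H] [TopologicalSpace H]
      [CompactSpace H] (s : H →* G), Continuous s → (∀ g, ∃ h, (s h)⁻¹ * g ∈ N) →
      ∀ g, ∃ h, R (s h) = R g := by
  obtain ⟨k, hk2, hk⟩ := VV_stab (R := R)
  refine ⟨AA R (k + 1), AA_normal _, AA_open hR _, fun H _ _ _ s hs hHN => ?_⟩
  have key : ∀ i : ℕ, ∀ g, ∃ h, (s h)⁻¹ * g ∈ AA R (k + 1 + i) := by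
    intro i
    induction i with
    | zero => exact hHN
    | succ i ih =>
      intro γ
      obtain ⟨h, hσ⟩ := ih γ
      obtain ⟨B, hB⟩ := AA_form hσ
      -- an element of the previous congruence subgroup
      obtain ⟨σ', B', hB', hBB'⟩ : B.map (PadicInt.toZMod : ℤ_[p] →+* ZMod p) ∈ VV R (k + i) := by
        rw [hk (k + i) (by omega), ← hk (k + 1 + i) (by omega)]
        exact ⟨_, B, hB, rfl⟩
      obtain ⟨h', hν⟩ := ih σ'
      -- the same class for `h'`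
      have hν' : σ'⁻¹ * s h' ∈ AA R (k + 1 + i) := by
        have h1 : σ'⁻¹ * s h' = ((s h')⁻¹ * σ')⁻¹ := by group
        rw [h1]
        exact (AA R (k + 1 + i)).inv_mem hν
      obtain ⟨C, hC⟩ := AA_form hν'
      have hh'R : R (s h') = 1 + ((p : ℤ_[p]) ^ (k + i)) • (B' + (p : ℤ_[p]) •
          (C + ((p : ℤ_[p]) ^ (k + i)) • (B' * C))) := by
        have h1 : R (s h') = R σ' * R (σ'⁻¹ * s h') := by
          rw [← map_mul]
          congr 1
          group
        rw [h1, hB', hC, add_mul, one_mul, mul_add, mul_one, smul_mul_assoc, mul_smul_comm, smul_smul,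
          smul_add, smul_smul, smul_add, smul_smul]
        have e1 : (p : ℤ_[p]) ^ (k + 1 + i) = (p : ℤ_[p]) ^ (k + i) * p := by ring
        rw [e1]
        have e2 : (p : ℤ_[p]) ^ (k + i) * ((p : ℤ_[p]) ^ (k + i) * p) =
            (p : ℤ_[p]) ^ (k + i) * p * (p : ℤ_[p]) ^ (k + i) := by ring
        rw [e2]
        abel
      obtain ⟨D, hD⟩ := pow_step (j := k + i) (by omega) (B' + (p : ℤ_[p]) •
          (C + ((p : ℤ_[p]) ^ (k + i)) • (B' * C)))
      have hpow : R (s h' ^ p) = 1 + ((p : ℤ_[p]) ^ (k + 1 + i)) • ((B' + (p : ℤ_[p]) •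
          (C + ((p : ℤ_[p]) ^ (k + i)) • (B' * C))) + (p : ℤ_[p]) • D) := by
        rw [map_pow, hh'R, hD]
        congr 3
        omega
      have hcg : Cg (k + 1 + i + 1) (R ((s h)⁻¹ * γ)) (R (s h' ^ p)) := by
        rw [hB, hpow]
        refine cg_of_red ?_
        rw [red_add, red_add, hBB']
      refine ⟨h * h' ^ p, ?_⟩
      have h1 : (s (h * h' ^ p))⁻¹ * γ = (s h' ^ p)⁻¹ * ((s h)⁻¹ * γ) := by
        rw [map_mul, map_pow]
        group
      rw [h1, mem_AA, map_mul]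
      have h2 := hcg.mul_left (R (s h' ^ p)⁻¹)
      rw [← map_mul R (s h' ^ p)⁻¹ (s h' ^ p), inv_mul_cancel, map_one] at h2
      exact h2
  intro γ
  -- the limit
  let C : ℕ → Set H := fun i => {h | (s h)⁻¹ * γ ∈ AA R (k + 1 + i)}
  have hcl : ∀ i, IsClosed (C i) := by
    intro i
    have hAc : IsClosed (AA R (k + 1 + i) : Set G) :=
      Subgroup.isClosed_of_isOpen _ (AA_open hR _)
    exact hAc.preimage ((continuous_inv.comp hs).mul continuous_const)
  have hanti : ∀ i, C (i + 1) ⊆ C i := by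
    intro i h h2
    exact Cg.mono (by omega) (mem_AA.1 h2)
  obtain ⟨h, hh⟩ := IsCompact.nonempty_iInter_of_sequence_nonempty_isCompact_isClosed C hanti
    (fun i => by
      obtain ⟨h, h1⟩ := key i γ
      exact ⟨h, h1⟩) (hcl 0).isCompact hcl
  rw [Set.mem_iInter] at hh
  refine ⟨h, ?_⟩
  have h1 : R ((s h)⁻¹ * γ) = 1 := by
    refine eq_of_cg fun j => ?_
    exact Cg.mono (show j ≤ k + 1 + j by omega) (mem_AA.1 (hh j))
  have h2 : R γ = R (s h) * R ((s h)⁻¹ * γ) := by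
    rw [← map_mul]
    congr 1
    group
  rw [h2, h1, mul_one]

end frattini

end Pool.Agent.T2H36.FB
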