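import Pool.Agent.T2H36.FB.A1
import Pool.Agent.T2H36.DD.D4

set_option autoImplicit false
set_option linter.unusedSectionVars false
set_option linter.style.haveILetI false

/-!
Fibres of families, part 2: the Lie algebra of the image of the Galois group of a fibre.
-/

open Matrix Filter Topology
open Pool.Agent.Y142.ZS (Sim SpLie)
open Pool.Agent.Y95.MT

namespace Pool.Agent.T2H36.FB

open Pool.Agent.T2H36.IX Pool.Agent.R932

section jtan

variable {p : ℕ} [hp : Fact p.Prime] {ι : Type} [Fintype ι] [DecidableEq ι] {n : ι → ℕ}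
  {G : Type} [Group G]

/-- the block diagonal representation -/
noncomputable def bd (β : ∀ i, G →* Matrix (Fin (n i)) (Fin (n i)) ℤ_[p]) :
    G →* Matrix (Σ i, Fin (n i)) (Σ i, Fin (n i)) ℤ_[p] where
  toFun σ := blockDiagonal' fun i => β i σ
  map_one' := by
    have h1 : (fun i => β i 1) = fun i => (1 : Matrix (Fin (n i)) (Fin (n i)) ℤ_[p]) := by
      funext i
      rw [map_one]
    rw [h1]
    exact blockDiagonal'_one
  map_mul' a b := by
    rw [← blockDiagonal'_mul]
    simp only [map_mul]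

theorem bd_eq {β : ∀ i, G →* Matrix (Fin (n i)) (Fin (n i)) ℤ_[p]} {σ τ : G}
    (h : bd β σ = bd β τ) (i : ι) : β i σ = β i τ := by
  ext a b
  have h1 := congrFun (congrFun h ⟨i, a⟩) ⟨i, b⟩
  change blockDiagonal' (fun i => β i σ) ⟨i, a⟩ ⟨i, b⟩ =
    blockDiagonal' (fun i => β i τ) ⟨i, a⟩ ⟨i, b⟩ at h1
  rwa [blockDiagonal'_apply_eq, blockDiagonal'_apply_eq] at h1

variable [TopologicalSpace G] [IsTopologicalGroup G] [CompactSpace G]

theorem bd_cont {β : ∀ i, G →* Matrix (Fin (n i)) (Fin (n i)) ℤ_[p]} (hβ : ∀ i, Continuous (β i)) :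
    Continuous (bd β) :=
  Continuous.matrix_blockDiagonal' (continuous_pi hβ)

/-- **the Lie algebra of the image of a subgroup which is large modulo `N`** -/
theorem jtan_fibre {β : ∀ i, G →* Matrix (Fin (n i)) (Fin (n i)) ℤ_[p]}
    (hβ : ∀ i, Continuous (β i)) :
    ∃ N : Subgroup G, N.Normal ∧ IsOpen (N : Set G) ∧
      ∀ (G' G'' : Type) [Group G'] [TopologicalSpace G'] [CompactSpace G'] [Group G'']
        [TopologicalSpace G''] [CompactSpace G''] (s : G' →* G) (r : G'' →* G'), Continuous s →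
        Continuous r → r.range.FiniteIndex → (∀ g, ∃ σ, (s σ)⁻¹ * g ∈ N) →
        ∀ X : ∀ i, Matrix (Fin (n i)) (Fin (n i)) ℚ_[p], PO.JTan p (fun i => qrep (β i)) X →
          PO.JTan p (fun i => (qrep (β i)).comp (s.comp r)) X := by
  obtain ⟨N, hN, hNo, hfr⟩ := frattini (bd_cont hβ)
  refine ⟨N, hN, hNo, ?_⟩
  intro G' G'' _ _ _ _ _ _ s r hs hr hrf hsN X hX
  have hH : ∀ g, ∃ σ, bd β (s σ) = bd β g := hfr G' s hs hsN
  let U : Subgroup G :=
    { carrier := {g | ∃ τ : G'', bd β (s (r τ)) = bd β g}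
      one_mem' := ⟨1, by rw [map_one, map_one]⟩
      mul_mem' := by
        rintro a b ⟨τ, hτ⟩ ⟨τ', hτ'⟩
        exact ⟨τ * τ', by rw [map_mul r, map_mul s, map_mul (bd β), hτ, hτ', map_mul]⟩
      inv_mem' := by
        rintro a ⟨τ, hτ⟩
        refine ⟨τ⁻¹, ?_⟩
        have h1 : bd β (s (r τ⁻¹)) * bd β (s (r τ)) = 1 := by
          rw [← map_mul (bd β), ← map_mul s, ← map_mul r, inv_mul_cancel, map_one, map_one, map_one]
        have h2 : bd β (s (r τ)) * bd β a⁻¹ = 1 := by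
          rw [hτ, ← map_mul, mul_inv_cancel, map_one]
        calc bd β (s (r τ⁻¹)) = bd β (s (r τ⁻¹)) * (bd β (s (r τ)) * bd β a⁻¹) := by
              rw [h2, mul_one]
          _ = bd β a⁻¹ := by rw [← mul_assoc, h1, one_mul] }
  have hUmem : ∀ g, g ∈ U ↔ ∃ τ : G'', bd β (s (r τ)) = bd β g := fun g => Iff.rfl
  haveI : Finite (G' ⧸ r.range) := Subgroup.finite_quotient_of_finiteIndex
  haveI hUf : U.FiniteIndex := by
    have h1 : Function.Surjective fun c : G' ⧸ r.range => (QuotientGroup.mk (s c.out) : G ⧸ U) := by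
      intro q
      obtain ⟨g, rfl⟩ := QuotientGroup.mk_surjective q
      obtain ⟨σ, hσ⟩ := hH g
      refine ⟨QuotientGroup.mk σ, ?_⟩
      show (QuotientGroup.mk (s (Quotient.out (QuotientGroup.mk σ : G' ⧸ r.range))) : G ⧸ U) = _
      rw [QuotientGroup.eq, hUmem]
      obtain ⟨⟨_, τ, rfl⟩, hτ⟩ := QuotientGroup.mk_out_eq_mul r.range σ
      rw [hτ]
      refine ⟨τ⁻¹, ?_⟩
      have h2 : bd β ((s (σ * r τ))⁻¹ * g) = bd β ((s (σ * r τ))⁻¹ * s σ) := by
        rw [map_mul (bd β) _ g, map_mul (bd β) _ (s σ), hσ]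
      show bd β (s (r τ⁻¹)) = bd β ((s (σ * r τ))⁻¹ * g)
      rw [h2]
      congr 1
      rw [← map_inv, ← map_mul]
      congr 1
      rw [map_inv]
      group
    haveI : Finite (G ⧸ U) := Finite.of_surjective _ h1
    exact Subgroup.finiteIndex_of_finite_quotient
  have hUc : IsClosed (U : Set G) := by
    have h1 : (U : Set G) = (bd β) ⁻¹' (Set.range fun τ : G'' => bd β (s (r τ))) := rfl
    rw [h1]
    refine IsClosed.preimage (bd_cont hβ) (IsCompact.isClosed ?_)
    exact isCompact_range ((bd_cont hβ).comp (hs.comp hr))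
  have hUo : IsOpen (U : Set G) := Subgroup.isOpen_of_isClosed_of_finiteIndex U hUc
  refine PO.joint_comp (ρ := fun i => qrep (β i)) (fun i => continuous_qm.comp (hβ i)) hUo ?_ hX
  rintro γ ⟨τ, hτ⟩
  refine ⟨τ, fun i => ?_⟩
  show qm (β i (s (r τ))) = qm (β i γ)
  rw [bd_eq hτ i]

end jtan

end Pool.Agent.T2H36.FB
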