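import Pool.Agent.T2H36.FB.A2
import Pool.Agent.T2H36.DD.D5

set_option autoImplicit false
set_option linter.unusedSectionVars false
set_option linter.style.haveILetI false

/-!
Fibres of families, part 3: the adelic statement from the joint Lie algebra at one prime; the joint
Lie algebra from the topological monodromy group; the choice of the prime.
-/

open MvPolynomial Matrix Filter Topology NumberField IsDedekindDomain
open Pool.Agent.Y142.ZO Pool.Agent.Y142.ZI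
open Pool.Agent.Y142.ZS (Sim SpLie)
open Pool.Agent.Y95.MT
open Pool.Agent.W544.PG (HS BD bl)
open Pool.Agent.T2H36.MG (blk InG)
open Pool.Agent.T2H36.IX

namespace Pool.Agent.T2H36.FB

open Pool.Agent.R932 Pool.Agent.R932.OP

section final

variable {K : Type} [Field K] [NumberField K] {κ : Type} [Fintype κ] [DecidableEq κ] {ι : Type}
  [Fintype ι] [DecidableEq ι] {n : ι → ℕ} {S : Set (HeightOneSpectrum (𝓞 K))}
  {P : ι → HeightOneSpectrum (𝓞 K) → Polynomial ℚ} {Γ : Type} [Group Γ] [TopologicalSpace Γ]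
  [IsTopologicalGroup Γ] [CompactSpace Γ] {s : GK K →* Γ} {T : ∀ i, HS (n i)}

/-- **from one prime to the adelic statement at 100 percent of the primes, several summands** -/
theorem main_sumF (hB : MG.Big κ (fun i => (T i).Q) (hSum κ T)) (hS : S.Finite) (hs : Continuous s)
    (α : ∀ (ℓ : ℕ) [Fact ℓ.Prime], Γ →* Matrix κ κ ℤ_[ℓ])
    (hα : ∀ (ℓ : ℕ) [Fact ℓ.Prime], (Set.range (α ℓ)).Finite)
    (β : ∀ (i : ι) (ℓ : ℕ) [Fact ℓ.Prime], Γ →* Matrix (Fin (n i)) (Fin (n i)) ℤ_[ℓ])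
    (hβ : ∀ (i : ι) (ℓ : ℕ) [Fact ℓ.Prime], RepT s (T i) S (P i) ℓ (β i ℓ))
    (hconn : ∀ (ℓ : ℕ) [Fact ℓ.Prime], Conn (totS (α ℓ) (fun i => β i ℓ)))
    (ℓ₀ : ℕ) [hℓ₀ : Fact ℓ₀.Prime] (hgood : ∀ i, GoodPrime (n i) (T i).Q ℓ₀)
    (hfull : ∀ X : ∀ i, Matrix (Fin (n i)) (Fin (n i)) ℚ_[ℓ₀],
      (∀ i, SpLie ((T i).Q.map (algebraMap ℚ ℚ_[ℓ₀])) (X i)) →
      PO.JTan ℓ₀ (fun i => (qrep (β i ℓ₀)).comp s) X) :
    ∃ Λ : Set ℕ, Y142.ZI.DensityZero {ℓ | ℓ.Prime ∧ ℓ ∉ Λ} ∧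
      AdelicLe (2 ^ Fintype.card ι) (hSum κ T) (fun ℓ _ => totS (α ℓ) (fun i => β i ℓ)) Λ := by
  classical
  have hpos : ∀ i, 0 < n i := fun i => by have := (hgood i).five; omega
  have hQ : ∀ i, ((T i).Q).det ≠ 0 := fun i => Pool.Agent.W74.PG.det_ne (T i)
  choose D Z hD hZ hsys hb hgen using fun i => int_form hs (fun ℓ _ => β i ℓ) (fun ℓ _ => hβ i ℓ)
  choose b hb using hb
  obtain ⟨Λ, hΛ, hn, hun, hbig, hpair⟩ := joint_big hS hs β hβ hD (fun i ℓ _ => hsys i ℓ)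
    (fun i ℓ _ => hb i ℓ) (fun i ℓ _ => hgen i ℓ) ℓ₀ hgood hfull
  refine ⟨Λ, hΛ, ?_⟩
  have hBs : ∀ (i : ι) (ℓ : ℕ) [Fact ℓ.Prime], ((Z i).map (Int.cast : ℤ → ℤ_[ℓ]))ᵀ =
      (Z i).map (Int.cast : ℤ → ℤ_[ℓ]) := by
    intro i ℓ _
    rw [← Matrix.transpose_map, z_symm (hZ i)]
  have hiso : ∀ (i : ι) (ℓ : ℕ) [Fact ℓ.Prime] (g : Γ),
      (β i ℓ g)ᵀ * (Z i).map (Int.cast : ℤ → ℤ_[ℓ]) * β i ℓ g = (Z i).map (Int.cast : ℤ → ℤ_[ℓ]) :=
    fun i ℓ _ g => (iso_iff (hD i) (hZ i) ℓ _).1 ((hβ i ℓ).form g)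
  have hα1 : ∀ (ℓ : ℕ) [Fact ℓ.Prime] (σ : Γ), α ℓ σ = 1 := fun ℓ _ σ => (hconn ℓ).leftS (hα ℓ) σ
  have hβ1 : ∀ (i : ι) (ℓ : ℕ) [Fact ℓ.Prime] (σ : Γ), (β i ℓ σ).det = 1 := fun i ℓ _ σ =>
    (hconn ℓ).rightS i (fun σ => det_pm (z_det (hD i) (hZ i) ℓ) (hiso i ℓ σ)) σ
  have htot : ∀ (ℓ : ℕ) [Fact ℓ.Prime] (σ : Γ), totS (α ℓ) (fun i => β i ℓ) σ =
      MG.emb κ fun i => β i ℓ σ := by
    intro ℓ _ σ
    show fromBlocks (α ℓ σ) 0 0 _ = _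
    rw [hα1]
    rfl
  refine ⟨?_, fun ℓ _ => {g | ∃ u : ∀ i, Matrix (Fin (n i)) (Fin (n i)) ℤ_[ℓ], g = MG.emb κ u ∧
    ∀ i, (u i)ᵀ * (Z i).map (Int.cast : ℤ → ℤ_[ℓ]) * u i = (Z i).map (Int.cast : ℤ → ℤ_[ℓ]) ∧
      (u i).det = 1 ∧ red ℓ (u i) ∈ Om ℓ (red ℓ ((Z i).map (Int.cast : ℤ → ℤ_[ℓ])))}, ?_, ?_⟩
  · intro ℓ _ hℓ σ
    rw [htot, mem_GZS hpos hB]
    exact ⟨_, rfl, fun i => ⟨(hβ i ℓ).form σ, hβ1 i ℓ σ⟩⟩
  · intro ℓ _ hℓ
    refine ⟨?_, ?_, ?_, ?_, ?_⟩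
    · rintro _ ⟨u, rfl, hu⟩
      exact (mem_GZS hpos hB).2 ⟨u, rfl, fun i => ⟨(iso_iff (hD i) (hZ i) ℓ _).2 (hu i).1,
        (hu i).2.1⟩⟩
    · refine ⟨fun i => 1, MG.emb_one.symm, fun i => ⟨by rw [transpose_one, one_mul, mul_one],
        det_one, ?_⟩⟩
      rw [red_one']
      exact Submonoid.one_mem _
    · rintro _ ⟨u, rfl, hu⟩ _ ⟨v, rfl, hv⟩
      refine ⟨fun i => u i * v i, MG.emb_mul _ _, fun i => ⟨?_, ?_, ?_⟩⟩
      · rw [transpose_mul]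
        calc (v i)ᵀ * (u i)ᵀ * (Z i).map (Int.cast : ℤ → ℤ_[ℓ]) * (u i * v i) =
            (v i)ᵀ * ((u i)ᵀ * (Z i).map (Int.cast : ℤ → ℤ_[ℓ]) * u i) * v i := by
              simp only [mul_assoc]
          _ = _ := by rw [(hu i).1, (hv i).1]
      · rw [det_mul, (hu i).2.1, (hv i).2.1, one_mul]
      · rw [Lft.red_mul]
        exact Submonoid.mul_mem _ (hu i).2.2 (hv i).2.2
    · rintro _ ⟨u, rfl, hu⟩
      choose u' h1 h2 h3 using fun i => iso_inv (hun i ℓ hℓ) (hu i).1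
      refine ⟨u', ?_, fun i => ⟨h3 i, ?_, om_inv (by rw [← Lft.red_mul, h1, red_one']) (hu i).2.2⟩⟩
      · refine Matrix.inv_eq_right_inv ?_
        rw [MG.emb_mul, ← MG.emb_one (κ := κ) (n := n) (R := ℤ_[ℓ])]
        congr 1
        funext i
        exact h2 i
      · have h4 := congrArg Matrix.det (h1 i)
        rwa [det_mul, (hu i).2.1, mul_one, det_one] at h4
    · choose w hw hwd hall using fun i => index_two (show ℓ ≠ 2 by
        have := hn i ℓ hℓ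
        have := (hgood i).five
        omega) (by have := (hgood i).five; omega) (hBs i ℓ) (hun i ℓ hℓ)
      let rep : Finset ι → Matrix (κ ⊕ Σ i, Fin (n i)) (κ ⊕ Σ i, Fin (n i)) ℤ_[ℓ] := fun A =>
        MG.emb κ fun i => if i ∈ A then w i else 1
      refine ⟨Set.range rep, Set.finite_range _, ?_, ?_, ?_⟩
      · have h1 : (Set.range rep).ncard ≤ Nat.card (Finset ι) := by
          rw [← Set.image_univ, ← Set.ncard_univ]
          exact Set.ncard_image_le (Set.toFinite _)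
        refine h1.trans (le_of_eq ?_)
        rw [Nat.card_eq_fintype_card, Fintype.card_finset]
      · rintro _ ⟨A, rfl⟩
        refine (mem_GZS hpos hB).2 ⟨_, rfl, fun i => ?_⟩
        by_cases hi : i ∈ A
        · rw [if_pos hi]
          exact ⟨(iso_iff (hD i) (hZ i) ℓ _).2 (hw i), hwd i⟩
        · rw [if_neg hi]
          exact ⟨(iso_iff (hD i) (hZ i) ℓ _).2 (by rw [transpose_one, one_mul, mul_one]), det_one⟩
      · intro g hg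
        obtain ⟨v, rfl, hv⟩ := (mem_GZS hpos hB).1 hg
        have h1 : ∀ i, ∃ (t : Bool) (ω : Matrix (Fin (n i)) (Fin (n i)) ℤ_[ℓ]),
            (ωᵀ * (Z i).map (Int.cast : ℤ → ℤ_[ℓ]) * ω = (Z i).map (Int.cast : ℤ → ℤ_[ℓ]) ∧
            ω.det = 1 ∧ red ℓ ω ∈ Om ℓ (red ℓ ((Z i).map (Int.cast : ℤ → ℤ_[ℓ])))) ∧
            v i = (if t = true then w i else 1) * ω := by
          intro i
          rcases hall i (v i) ((iso_iff (hD i) (hZ i) ℓ _).1 (hv i).1) (hv i).2 with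
            h2 | ⟨ω, h2, h3, h4, h5⟩
          · exact ⟨false, v i, ⟨(iso_iff (hD i) (hZ i) ℓ _).1 (hv i).1, (hv i).2, h2⟩, by simp⟩
          · exact ⟨true, ω, ⟨h2, h3, h4⟩, by simpa using h5⟩
        choose t ω hω hvω using h1
        refine ⟨rep (Finset.univ.filter fun i => t i = true), ⟨_, rfl⟩, MG.emb κ ω,
          ⟨ω, rfl, hω⟩, ?_⟩
        rw [MG.emb_mul]
        congr 1
        funext i
        rw [hvω i]
        congr 1
        simp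
  · intro h hh
    have h1 : ∀ (i : ι) (ℓ : ℕ) [Fact ℓ.Prime], ℓ ∈ Λ →
        (blk (h ℓ) i)ᵀ * (Z i).map (Int.cast : ℤ → ℤ_[ℓ]) * blk (h ℓ) i =
          (Z i).map (Int.cast : ℤ → ℤ_[ℓ]) ∧
        red ℓ (blk (h ℓ) i) ∈ Om ℓ (red ℓ ((Z i).map (Int.cast : ℤ → ℤ_[ℓ]))) := by
      intro i ℓ _ hℓ
      obtain ⟨u, h2, hu⟩ := hh ℓ hℓ
      rw [h2, MG.blk_emb]
      exact ⟨(hu i).1, (hu i).2.2⟩
    obtain ⟨σ, hσ⟩ := adelic2 (fun i => (hgood i).five) Λ hn β (fun i ℓ _ => (hβ i ℓ).cont)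
      (fun i ℓ _ => (Z i).map (Int.cast : ℤ → ℤ_[ℓ])) hBs hiso hun hbig hpair
      (fun i ℓ _ => blk (h ℓ) i) h1
    refine ⟨σ, fun ℓ _ hℓ => ?_⟩
    obtain ⟨u, h2, -⟩ := hh ℓ hℓ
    rw [htot, h2]
    congr 1
    funext i
    rw [hσ i ℓ hℓ, h2, MG.blk_emb]

end final

section top

/-- `g` is in the identity component of the Zariski closure (over `ℂ`) of the group of the matrices
`m γ` -/
def InTop {A : Type} [Group A] {J : Type} [Fintype J] [DecidableEq J] (m : A → Matrix J J ℂ)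
    (g : Matrix J J ℂ) : Prop :=
  ∀ f : MvPolynomial (J × J) ℂ,
    (∃ Δ : Subgroup A, Δ.FiniteIndex ∧ ∀ γ ∈ Δ, aeval (fun q : J × J => m γ q.1 q.2) f = 0) →
    aeval (fun q : J × J => g q.1 q.2) f = 0

variable {κ : Type} [Fintype κ] [DecidableEq κ] {ι : Type} [Fintype ι] [DecidableEq ι] {n : ι → ℕ}

theorem lift_evalC {ℓ : ℕ} [Fact ℓ.Prime] (ε : ℚ_[ℓ] →+* ℂ)
    {g : Matrix (κ ⊕ Σ i, Fin (n i)) (κ ⊕ Σ i, Fin (n i)) ℂ}
    {t : ∀ i, Matrix (Fin (n i)) (Fin (n i)) ℚ_[ℓ]}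
    (h : ∀ i a b, g (Sum.inr ⟨i, a⟩) (Sum.inr ⟨i, b⟩) = ε (t i a b)) (f : GR.Pf ℚ_[ℓ] n) :
    aeval (fun q : (κ ⊕ Σ i, Fin (n i)) × (κ ⊕ Σ i, Fin (n i)) => g q.1 q.2)
      (MvPolynomial.eval₂Hom (MvPolynomial.C.comp ε)
        (fun x : (Σ i, Fin (n i) × Fin (n i)) =>
          (X (Sum.inr ⟨x.1, x.2.1⟩, Sum.inr ⟨x.1, x.2.2⟩) :
            MvPolynomial ((κ ⊕ Σ i, Fin (n i)) × (κ ⊕ Σ i, Fin (n i))) ℂ)) f) =
      ε (GR.evf t f) := by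
  have h1 : ((aeval (fun q : (κ ⊕ Σ i, Fin (n i)) × (κ ⊕ Σ i, Fin (n i)) => g q.1 q.2) :
      MvPolynomial ((κ ⊕ Σ i, Fin (n i)) × (κ ⊕ Σ i, Fin (n i))) ℂ →ₐ[ℂ]
        ℂ) : _ →+* _).comp (MvPolynomial.eval₂Hom (MvPolynomial.C.comp ε)
        (fun x : (Σ i, Fin (n i) × Fin (n i)) =>
          (X (Sum.inr ⟨x.1, x.2.1⟩, Sum.inr ⟨x.1, x.2.2⟩) :
            MvPolynomial ((κ ⊕ Σ i, Fin (n i)) × (κ ⊕ Σ i, Fin (n i))) ℂ))) =
      ε.comp (GR.evf t) := by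
    refine MvPolynomial.ringHom_ext (fun r => ?_) (fun x => ?_)
    · simp [GR.evf]
    · simp [GR.evf, h]
  exact congrFun (congrArg DFunLike.coe h1) f

/-- **the Zariski closure of the image of the étale fundamental group** -/
theorem zarF_of_top {ℓ : ℕ} [hp : Fact ℓ.Prime] {G : Type} [Group G] {A : Type} [Group A]
    {τ : A →* G} {mon : A → Matrix (κ ⊕ Σ i, Fin (n i)) (κ ⊕ Σ i, Fin (n i)) ℤ}
    {α : G →* Matrix κ κ ℤ_[ℓ]} {β : ∀ i, G →* Matrix (Fin (n i)) (Fin (n i)) ℤ_[ℓ]}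
    (hcomp : ∀ γ, totS α β (τ γ) = (mon γ).map (Int.cast : ℤ → ℤ_[ℓ]))
    {Q : ∀ i, Matrix (Fin (n i)) (Fin (n i)) ℚ}
    (hbig : ∀ t : ∀ i, Matrix (Fin (n i)) (Fin (n i)) ℂ,
      (∀ i, (t i)ᵀ * (Q i).map (algebraMap ℚ ℂ) * t i = (Q i).map (algebraMap ℚ ℂ)) →
      (∀ i, (t i).det = 1) → InTop (fun γ => (mon γ).map (Int.cast : ℤ → ℂ)) (MG.emb κ t)) :
    GR.ZarF (fun i => qrep (β i)) (fun i => (Q i).map (algebraMap ℚ ℚ_[ℓ])) := by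
  obtain ⟨ε⟩ := _root_.W435.PG.emb ℓ
  rintro f ⟨Δ, hΔ, hf⟩ t ht htd
  have hε : ∀ i, ((Q i).map (algebraMap ℚ ℚ_[ℓ])).map ε = (Q i).map (algebraMap ℚ ℂ) := by
    intro i
    ext a b
    simp
  have h1 := hbig (fun i => (t i).map ε) (fun i => by
    have h2 := congrArg (fun A => A.map ε) (ht i)
    beta_reduce at h2
    rw [Matrix.map_mul, Matrix.map_mul, Matrix.transpose_map, hε] at h2
    exact h2) (fun i => by
    have h2 := ε.map_det (t i)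
    rw [RingHom.mapMatrix_apply] at h2
    rw [← h2, htd i, map_one])
  have hΔ' : (Δ.comap τ).FiniteIndex := by
    refine ⟨?_⟩
    rw [Subgroup.index_comap]
    exact fun h => hΔ.index_ne_zero (Subgroup.index_eq_zero_of_relIndex_eq_zero h)
  have h2 := h1 _ ⟨Δ.comap τ, hΔ', fun γ hγ => by
    have h3 := lift_evalC (κ := κ) ε (g := (mon γ).map (Int.cast : ℤ → ℂ))
      (t := fun i => qrep (β i) (τ γ)) (fun i a b => by
        have h4 := congrFun (congrFun (hcomp γ) (Sum.inr ⟨i, a⟩)) (Sum.inr ⟨i, b⟩)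
        change blockDiagonal' (fun i => β i (τ γ)) ⟨i, a⟩ ⟨i, b⟩ = _ at h4
        rw [blockDiagonal'_apply_eq, Matrix.map_apply] at h4
        show ((mon γ (Sum.inr ⟨i, a⟩) (Sum.inr ⟨i, b⟩) : ℤ) : ℂ) =
          ε (algebraMap ℤ_[ℓ] ℚ_[ℓ] (β i (τ γ) a b))
        rw [h4, map_intCast, map_intCast]) f
    have h5 : GR.evf (fun i => qrep (β i) (τ γ)) f = 0 := hf (τ γ) hγ
    rw [h5, map_zero] at h3
    exact h3⟩
  have h3 := lift_evalC (κ := κ) ε (g := MG.emb κ fun i => (t i).map ε) (t := t) (fun i a b => by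
    show blockDiagonal' (fun i => (t i).map ε) ⟨i, a⟩ ⟨i, b⟩ = _
    rw [blockDiagonal'_apply_eq, Matrix.map_apply]) f
  rw [h2] at h3
  exact (map_eq_zero ε).1 h3.symm

end top

section prime

variable {ι : Type} [Fintype ι] {n : ι → ℕ}

theorem val_zero {q : ℚ} {ℓ : ℕ} (hp : ℓ.Prime) (h1 : q.num.natAbs < ℓ) (h2 : q.den < ℓ)
    (hq : q ≠ 0) : padicValRat ℓ q = 0 := by
  have h3 : padicValNat ℓ q.num.natAbs = 0 := by
    refine padicValNat.eq_zero_of_not_dvd fun h => ?_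
    have := Nat.le_of_dvd (Int.natAbs_pos.2 (Rat.num_ne_zero.2 hq)) h
    omega
  have h4 : padicValNat ℓ q.den = 0 := by
    refine padicValNat.eq_zero_of_not_dvd fun h => ?_
    have := Nat.le_of_dvd q.den_pos h
    omega
  unfold padicValRat padicValInt
  rw [h3, h4]
  simp

/-- **the choice of the prime** -/
theorem exists_good (Q : ∀ i, Matrix (Fin (n i)) (Fin (n i)) ℚ) (hQ : ∀ i, (Q i).det ≠ 0)
    (hn : ∀ i, (Odd (n i) ∧ 5 ≤ n i) ∨ (Even (n i) ∧ 8 ≤ n i)) :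
    ∃ ℓ : ℕ, ℓ.Prime ∧ ∀ i, GoodPrime (n i) (Q i) ℓ := by
  let B : ℕ := ∑ i, (n i + (Q i).det.num.natAbs + (Q i).det.den)
  obtain ⟨ℓ, hℓ, hp⟩ := Nat.exists_infinite_primes (B + 1)
  refine ⟨ℓ, hp, fun i => ?_⟩
  have hB : n i + (Q i).det.num.natAbs + (Q i).det.den ≤ B :=
    Finset.single_le_sum (f := fun i => n i + (Q i).det.num.natAbs + (Q i).det.den)
      (fun _ _ => Nat.zero_le _) (Finset.mem_univ i)
  rcases hn i with ⟨h1, h2⟩ | ⟨h1, h2⟩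
  · refine Or.inl ⟨h1, h2, fun h => ?_⟩
    have := Nat.le_of_dvd (by omega) h
    omega
  · refine Or.inr ⟨h1, h2, fun h => ?_, ?_⟩
    · rcases (Nat.Prime.dvd_mul hp).1 h with h | h
      · have := Nat.le_of_dvd (by omega) h
        omega
      · have := Nat.le_of_dvd (by omega) h
        omega
    · rw [val_zero hp (by omega) (by omega) (hQ i)]
      exact Even.zero

end prime

end Pool.Agent.T2H36.FB
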