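import Pool.Agent.T2H36.FB.B1
import Pool.Agent.T2H36.BR.B2
import Pool.Agent.R931.IR.Rel

set_option autoImplicit false
set_option linter.unusedSectionVars false
set_option linter.style.haveILetI false

/-!
Fibres of families, Tate conjecture for divisors, part 1: even rank.
-/

open Matrix Filter Topology NumberField IsDedekindDomain
open Pool.Agent.Y142.ZO Pool.Agent.Y142.ZI
open Pool.Agent.Y142.ZS (Sim SpLie)
open Pool.Agent.Y95.MT

namespace Pool.Agent.T2H36.FB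

open Pool.Agent.R932 Pool.Agent.R932.OP Pool.Agent.T2H36.IX

section alg

/-- an invertible element of the Lie algebra, even rank -/
theorem exists_skew_unit {F : Type} [Field F] {n : ℕ} (hn : Even n) {J : Matrix (Fin n) (Fin n) F}
    (hJ : Jᵀ = J) (hd : J.det ≠ 0) : ∃ X, SpLie J X ∧ X.det ≠ 0 := by
  obtain ⟨m, rfl⟩ := hn
  have hu : IsUnit J.det := isUnit_iff_ne_zero.2 hd
  let e : Fin (m + m) ≃ Fin m ⊕ Fin m := finSumFinEquiv.symm
  let A : Matrix (Fin (m + m)) (Fin (m + m)) F := (Matrix.J (Fin m) F).submatrix e e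
  have hA : Aᵀ = -A := by
    show ((Matrix.J (Fin m) F).submatrix e e)ᵀ = -((Matrix.J (Fin m) F).submatrix e e)
    rw [transpose_submatrix, Matrix.J_transpose]
    rfl
  have hAd : A.det ≠ 0 := by
    show ((Matrix.J (Fin m) F).submatrix e e).det ≠ 0
    rw [det_submatrix_equiv_self]
    exact (Matrix.isUnit_det_J (Fin m) F).ne_zero
  refine ⟨J⁻¹ * A, ?_, ?_⟩
  · unfold SpLie
    rw [transpose_mul, transpose_nonsing_inv, hJ, hA, neg_mul, neg_mul, mul_assoc,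
      nonsing_inv_mul _ hu, mul_one, ← mul_assoc, mul_nonsing_inv _ hu, one_mul, neg_add_cancel]
  · rw [det_mul]
    exact mul_ne_zero (isUnit_iff_ne_zero.1 (Matrix.isUnit_nonsing_inv_det _ hu)) hAd

/-- roots of unity which are roots of a rational polynomial have bounded order -/
theorem roots_of_coprime {n : ℕ} {Q : Polynomial ℚ} (hQ : Q ≠ 0) (hdeg : Q.natDegree ≤ n)
    (hco : IsCoprime Q (Polynomial.X ^ (2 * n).factorial - 1)) :
    ∀ k : ℕ, 0 < k → ∀ x : ℂ, Polynomial.aeval x Q = 0 → x ^ k ≠ 1 := by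
  intro k hk x hx hxk
  have hfin : IsOfFinOrder x := isOfFinOrder_iff_pow_eq_one.2 ⟨k, hk, hxk⟩
  have hpr := IsPrimitiveRoot.orderOf x
  have hint : IsIntegral ℤ x := hpr.isIntegral hfin.orderOf_pos
  have h1 := hpr.totient_le_degree_minpoly
  have h2 : (minpoly ℤ x).natDegree ≤ n := by
    have h3 := minpoly.isIntegrallyClosed_eq_field_fractions' ℚ hint
    rw [← (minpoly.monic hint).natDegree_map (algebraMap ℤ ℚ), ← h3]
    exact (Polynomial.natDegree_le_of_dvd (minpoly.dvd ℚ x hx) hQ).trans hdeg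
  have h3 : x ^ (2 * n).factorial = 1 := orderOf_dvd_iff_pow_eq_one.1
    (R931.IR.dvd_factorial hfin.orderOf_pos (h1.trans h2))
  obtain ⟨a, b, hab⟩ := hco
  have h4 := congrArg (Polynomial.aeval x) hab
  rw [map_add, map_mul, map_mul, hx, mul_zero, map_sub, map_pow, Polynomial.aeval_X, h3, map_one,
    sub_self, mul_zero, add_zero] at h4
  exact zero_ne_one h4

/-- eigenvalues of `g` -/
theorem coprime_of_det {F : Type} [Field F] {n M : ℕ} {g : Matrix (Fin n) (Fin n) F}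
    (h : (g ^ M - 1).det ≠ 0) : IsCoprime g.charpoly (Polynomial.X ^ M - 1) := by
  refine (Polynomial.isCoprime_iff_aeval_ne_zero_of_isAlgClosed (k := F) (AlgebraicClosure F)
    g.charpoly (Polynomial.X ^ M - 1)).2 fun a => ?_
  by_contra hcon
  push Not at hcon
  obtain ⟨h1, h2⟩ := hcon
  have h2' : a ^ M = 1 := by simpa [sub_eq_zero] using h2
  let g' : Matrix (Fin n) (Fin n) (AlgebraicClosure F) := g.map (algebraMap F (AlgebraicClosure F))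
  have h3 : g'.charpoly.eval a = 0 := by
    rw [Matrix.charpoly_map, Polynomial.eval_map_algebraMap]
    exact h1
  rw [Matrix.eval_charpoly] at h3
  obtain ⟨v, hv, hv0⟩ := Matrix.exists_mulVec_eq_zero_iff.2 h3
  have h4 : g' *ᵥ v = a • v := by
    rw [sub_mulVec, sub_eq_zero] at hv0
    rw [← hv0]
    ext i
    simp [Matrix.scalar_apply, Matrix.mulVec_diagonal]
  have h5 : ∀ k : ℕ, g' ^ k *ᵥ v = a ^ k • v := by
    intro k
    induction k with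
    | zero => rw [pow_zero, pow_zero, one_mulVec, one_smul]
    | succ k ih => rw [pow_succ, ← mulVec_mulVec, h4, mulVec_smul, ih, smul_smul, pow_succ, mul_comm]
  have h6 : (g' ^ M - 1).det = 0 := by
    refine Matrix.exists_mulVec_eq_zero_iff.1 ⟨v, hv, ?_⟩
    rw [sub_mulVec, h5, h2', one_smul, one_mulVec, sub_self]
  have h7 : (g' ^ M - 1) = (g ^ M - 1).map (algebraMap F (AlgebraicClosure F)) := by
    show g' ^ M - 1 = (algebraMap F (AlgebraicClosure F)).mapMatrix (g ^ M - 1)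
    rw [map_sub, map_pow, map_one]
    rfl
  rw [h7] at h6
  have h8 := (algebraMap F (AlgebraicClosure F)).map_det (g ^ M - 1)
  rw [RingHom.mapMatrix_apply, h6] at h8
  exact h ((map_eq_zero _).1 h8)

end alg

section place

variable {K : Type} [Field K] [NumberField K] {S : Set (HeightOneSpectrum (𝓞 K))}

/-- **a Frobenius element without eigenvalues which are roots of unity** -/
theorem place_of_full {n : ℕ} (hn : Even n) (hS : S.Finite) {ℓ : ℕ} [hp : Fact ℓ.Prime]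
    {β : GK K →* Matrix (Fin n) (Fin n) ℤ_[ℓ]} (hβ : Continuous β)
    {J : Matrix (Fin n) (Fin n) ℚ_[ℓ]} (hJ : Jᵀ = J) (hd : J.det ≠ 0)
    (hfull : ∀ X, SpLie J X → IsTangent ℓ (qrep β) X)
    {P : HeightOneSpectrum (𝓞 K) → Polynomial ℚ}
    (hfrob : ∀ v ∉ S, (ℓ : 𝓞 K) ∉ v.asIdeal → ∀ σ : GK K, IsFrobenius v σ →
      (qm (β σ⁻¹)).charpoly = (P v).map (algebraMap ℚ ℚ_[ℓ])) :
    ∃ v ∉ S, ∀ k : ℕ, 0 < k → ∀ x : ℂ, Polynomial.aeval x (P v) = 0 → x ^ k ≠ 1 := by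
  obtain ⟨X, hX, hXd⟩ := exists_skew_unit hn hJ hd
  obtain ⟨σ, hσ⟩ := hfull X hX
  have hM0 : 0 < (2 * n).factorial := Nat.factorial_pos _
  generalize hMdef : (2 * n).factorial = M at hM0
  have h1 := BR.tangent_pow hσ M
  have h2 : Tendsto (fun k : ℕ => (((ℓ : ℚ_[ℓ]) ^ k)⁻¹ • (qrep β (σ k ^ M) - 1)).det) atTop
      (𝓝 ((M : ℚ_[ℓ]) • X).det) :=
    ((continuous_id.matrix_det).tendsto _).comp h1
  have h3 : ((M : ℚ_[ℓ]) • X).det ≠ 0 := by
    rw [det_smul]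
    exact mul_ne_zero (pow_ne_zero _ (Nat.cast_ne_zero.2 hM0.ne')) hXd
  obtain ⟨k, hk⟩ := (h2.eventually_ne h3).exists
  have h4 : (qrep β (σ k) ^ M - 1).det ≠ 0 := by
    intro h5
    apply hk
    rw [det_smul, map_pow, h5, mul_zero]
  have hO : IsOpen {τ : GK K | (qrep β τ ^ M - 1).det ≠ 0} := by
    have hc : Continuous fun τ : GK K => (qrep β τ ^ M - 1).det := by
      refine Continuous.matrix_det ?_
      have : Continuous fun τ : GK K => qrep β τ := continuous_qm.comp hβ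
      fun_prop
    exact hc.isOpen_preimage _ isOpen_ne
  obtain ⟨v, hv, τ, hτ, hτO⟩ := Y405.ZO.t K _ hO ⟨σ k, h4⟩
    (S ∪ {v | (ℓ : 𝓞 K) ∈ v.asIdeal}) (hS.union (finite_above ℓ hp.out))
  refine ⟨v, fun h => hv (Or.inl h), ?_⟩
  have h5 := hfrob v (fun h => hv (Or.inl h)) (fun h => hv (Or.inr h)) τ hτ
  have h6 : IsCoprime ((P v).map (algebraMap ℚ ℚ_[ℓ])) (Polynomial.X ^ M - 1) := by
    rw [← h5]
    exact coprime_of_det hτO
  have h7 : IsCoprime (P v) (Polynomial.X ^ M - 1) := coprime_of_map h6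
  have h8 : ((P v).map (algebraMap ℚ ℚ_[ℓ])).natDegree = n := by
    rw [← h5, Matrix.charpoly_natDegree_eq_dim, Fintype.card_fin]
  have h9 : (P v).natDegree = n := by
    rw [← h8, Polynomial.natDegree_map]
  refine roots_of_coprime (n := n) ?_ h9.le (by rw [hMdef]; exact h7)
  intro h10
  have h11 : ((P v).map (algebraMap ℚ ℚ_[ℓ])).Monic := by
    rw [← h5]
    exact Matrix.charpoly_monic _
  rw [h10, Polynomial.map_zero] at h11
  exact Polynomial.not_monic_zero h11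

variable {Γ : Type} [Group Γ] [TopologicalSpace Γ] [IsTopologicalGroup Γ] [CompactSpace Γ]
  {s : GK K →* Γ}

/-- the constant for one place -/
theorem kills_place {n : ℕ} {P : HeightOneSpectrum (𝓞 K) → Polynomial ℚ}
    (β : ∀ (ℓ : ℕ) [Fact ℓ.Prime], Γ →* Matrix (Fin n) (Fin n) ℤ_[ℓ])
    (hfrob : ∀ (ℓ : ℕ) [Fact ℓ.Prime], ∀ v ∉ S, (ℓ : 𝓞 K) ∉ v.asIdeal → ∀ σ : GK K,
      IsFrobenius v σ → (genM ℓ (β ℓ (s σ⁻¹))).charpoly = (P v).map (algebraMap ℚ ℚ_[ℓ]))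
    {v : HeightOneSpectrum (𝓞 K)} (hv : v ∉ S)
    (hroot : ∀ k : ℕ, 0 < k → ∀ x : ℂ, Polynomial.aeval x (P v) = 0 → x ^ k ≠ 1) {D : ℕ}
    (hD : 0 < D) : ∃ C : ℕ, 0 < C ∧ ∀ (ℓ : ℕ) [Fact ℓ.Prime], (ℓ : 𝓞 K) ∉ v.asIdeal →
      BR.Kills ℓ (β ℓ) D C := by
  obtain ⟨C, hC, hK⟩ := BR.integral_coprime (D := D) (Y142.ZO.coprime_of_roots hroot D hD)
  refine ⟨C, hC, fun ℓ hp hvℓ x hx => ?_⟩
  obtain ⟨σ, hσ⟩ := Pool.Agent.W401.Frob.exists_frob v
  refine hK ℓ n (β ℓ (s σ⁻¹)) (hfrob ℓ v hv hvℓ σ hσ) x fun a => ?_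
  have h1 := hx (s σ⁻¹) a
  rwa [map_pow (β ℓ)] at h1

/-- primes in a prime ideal divide its norm -/
theorem dvd_absNorm {v : HeightOneSpectrum (𝓞 K)} {ℓ : ℕ} (hℓ : ℓ.Prime)
    (h : (ℓ : 𝓞 K) ∈ v.asIdeal) : ℓ ∣ Ideal.absNorm v.asIdeal := by
  by_contra hcon
  have h1 : ((Ideal.absNorm v.asIdeal : ℕ) : 𝓞 K) ∈ v.asIdeal := Ideal.absNorm_mem v.asIdeal
  have h2 : Nat.Coprime (Ideal.absNorm v.asIdeal) ℓ := by
    rw [Nat.coprime_comm, Nat.Prime.coprime_iff_not_dvd hℓ]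
    exact hcon
  obtain ⟨a, b, hab⟩ := Nat.isCoprime_iff_coprime.2 h2
  apply v.isPrime.ne_top
  rw [Ideal.eq_top_iff_one]
  have h3 : ((a : ℤ) : 𝓞 K) * ((Ideal.absNorm v.asIdeal : ℕ) : 𝓞 K) + ((b : ℤ) : 𝓞 K) * (ℓ : 𝓞 K) =
      1 := by
    have := congrArg (Int.cast : ℤ → 𝓞 K) hab
    push_cast at this
    exact this
  rw [← h3]
  exact v.asIdeal.add_mem (v.asIdeal.mul_mem_left _ h1) (v.asIdeal.mul_mem_left _ h)

/-- **even rank: all primes** -/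
theorem kills_even {n : ℕ} (hn : Even n) (hS : S.Finite) (hs : Continuous s)
    {P : HeightOneSpectrum (𝓞 K) → Polynomial ℚ}
    (β : ∀ (ℓ : ℕ) [Fact ℓ.Prime], Γ →* Matrix (Fin n) (Fin n) ℤ_[ℓ])
    (hβ : ∀ (ℓ : ℕ) [Fact ℓ.Prime], Continuous (β ℓ))
    (hfrob : ∀ (ℓ : ℕ) [Fact ℓ.Prime], ∀ v ∉ S, (ℓ : 𝓞 K) ∉ v.asIdeal → ∀ σ : GK K,
      IsFrobenius v σ → (genM ℓ (β ℓ (s σ⁻¹))).charpoly = (P v).map (algebraMap ℚ ℚ_[ℓ]))
    {ℓ₀ : ℕ} [hp : Fact ℓ₀.Prime] {J : Matrix (Fin n) (Fin n) ℚ_[ℓ₀]} (hJ : Jᵀ = J) (hd : J.det ≠ 0)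
    (hfull : ∀ X, SpLie J X → IsTangent ℓ₀ ((qrep (β ℓ₀)).comp s) X) {D : ℕ} (hD : 0 < D) :
    ∃ C : ℕ, 0 < C ∧ ∀ (ℓ : ℕ) [Fact ℓ.Prime], BR.Kills ℓ (β ℓ) D C := by
  have hfull' : ∀ X, SpLie J X → IsTangent ℓ₀ (qrep ((β ℓ₀).comp s)) X := hfull
  obtain ⟨v, hv, hroot⟩ := place_of_full hn hS (β := (β ℓ₀).comp s) ((hβ ℓ₀).comp hs) hJ hd hfull'
    (P := P) (fun v hv hℓ σ hσ => hfrob ℓ₀ v hv hℓ σ hσ)
  have hN : Ideal.absNorm v.asIdeal ≠ 0 := fun h => v.ne_bot (Ideal.absNorm_eq_zero_iff.1 h)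
  have hS' : (S ∪ ⋃ ℓ ∈ (Ideal.absNorm v.asIdeal).primeFactors,
      {u : HeightOneSpectrum (𝓞 K) | (ℓ : 𝓞 K) ∈ u.asIdeal}).Finite := by
    refine hS.union (Set.Finite.biUnion (Finset.finite_toSet _) fun ℓ hℓ => ?_)
    exact finite_above ℓ (Nat.prime_of_mem_primeFactors hℓ)
  obtain ⟨u, hu, hroot'⟩ := place_of_full hn hS' (β := (β ℓ₀).comp s) ((hβ ℓ₀).comp hs) hJ hd hfull'
    (P := P) (fun v hv hℓ σ hσ => hfrob ℓ₀ v (fun h => hv (Or.inl h)) hℓ σ hσ)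
  obtain ⟨C, hC, hK⟩ := kills_place (s := s) β hfrob hv hroot hD
  obtain ⟨C', hC', hK'⟩ := kills_place (s := s) β hfrob (fun h => hu (Or.inl h)) hroot' hD
  refine ⟨C * C', Nat.mul_pos hC hC', fun ℓ hpℓ => ?_⟩
  by_cases h : (ℓ : 𝓞 K) ∈ v.asIdeal
  · have h1 : (ℓ : 𝓞 K) ∉ u.asIdeal := by
      intro h2
      apply hu
      right
      rw [Set.mem_iUnion₂]
      exact ⟨ℓ, Nat.mem_primeFactors.2 ⟨hpℓ.out, dvd_absNorm hpℓ.out h, hN⟩, h2⟩
    exact (hK' ℓ h1).mul_left C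
  · exact (hK ℓ h).of_dvd (Dvd.intro _ rfl)

end place

end Pool.Agent.T2H36.FB
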